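import Mathlib

/-!
The real inequalities behind the second-order barrier for three parts.
-/

namespace Pool.Agent.H677Z.Pav

lemma alg_two (s u : ℝ) (hu : 0 < u) (h1 : 2 * u ≤ s) (h2 : s + u ≤ 3 / 2)
    (hf : 0 ≤ 109 / 100 - 53 / 50 * (s + u) + 2 / 3 * (s ^ 2 / 4 + u * s)) :
    s ≤ 13 / 10 ∧
      0 ≤ 53 / 50 * s + u - 303 / 100 * u * s - 303 / 400 * s ^ 2 * (53 / 50 - 101 / 50 * u) := by
  have hs : s ≤ 13 / 10 := by
    by_contra hc
    have hc : 13 / 10 < s := not_le.1 hc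
    nlinarith [mul_nonneg (sub_nonneg.2 hc.le) (show 0 ≤ 3 / 2 - s by linarith),
      mul_nonneg hu.le (show 0 ≤ 3 / 2 - s by linarith)]
  refine ⟨hs, ?_⟩
  rcases le_total s 1 with h | h
  · have e : 0 ≤ 53 / 50 - 203 / 100 * u - 303 / 400 * s * (53 / 50 - 101 / 50 * u) := by
      nlinarith [mul_nonneg (show 0 ≤ s - 2 * u by linarith) (show 0 ≤ 1 - s by linarith),
        mul_nonneg hu.le (show 0 ≤ 1 - s by linarith), sq_nonneg (1 - s)]
    have s0 : 0 ≤ s := by linarith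
    nlinarith [mul_nonneg s0 e, mul_nonneg hu.le (show 0 ≤ 1 - s by linarith)]
  · obtain ⟨p, rfl⟩ : ∃ p, s = 1 + p := ⟨s - 1, by ring⟩
    obtain ⟨q, rfl⟩ : ∃ q, u = 1 / 2 - q := ⟨1 / 2 - u, by ring⟩
    have p0 : 0 ≤ p := by linarith
    have p1 : p ≤ 3 / 10 := by linarith
    have hq : 59 / 25 * p - p ^ 2 ≤ q * (59 / 25 - 4 * p) := by nlinarith
    have g0 : 0 ≤ 9997 / 20000 - 303 / 10000 * p - 30603 / 20000 * p ^ 2 := by nlinarith
    have w0 : 0 < 59 / 25 - 4 * p := by linarith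
    have key : 0 ≤ (59 / 25 - 4 * p) * (57 / 8000 - 2123 / 4000 * p - 303 / 8000 * p ^ 2)
        + (59 / 25 * p - p ^ 2) * (9997 / 20000 - 303 / 10000 * p - 30603 / 20000 * p ^ 2) := by
      nlinarith [mul_nonneg (sq_nonneg p) (show 0 ≤ 3 / 10 - p by linarith), sq_nonneg (p - 1 / 10),
        sq_nonneg (p ^ 2)]
    have fin : 0 ≤ (59 / 25 - 4 * p) * (57 / 8000 - 2123 / 4000 * p - 303 / 8000 * p ^ 2
        + q * (9997 / 20000 - 303 / 10000 * p - 30603 / 20000 * p ^ 2)) := by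
      nlinarith [mul_le_mul_of_nonneg_right hq g0]
    have fin2 := nonneg_of_mul_nonneg_right fin w0 |> fun h => h
    nlinarith [fin2]

lemma algK (t1 t2 t3 : ℝ) (h0 : 0 < t1) (h12 : t1 ≤ t2) (h23 : t2 ≤ t3)
    (hA : t1 * t2 + t1 * t3 + t2 * t3 ≤ 3 / 2 * (t1 * t2 * t3))
    (hB : 0 ≤ 109 / 100 * (t1 * t2 * t3) - 53 / 50 * (t1 * t2 + t1 * t3 + t2 * t3)
      + 2 / 3 * (t1 + t2 + t3)) :
    0 ≤ t1 + t2 - 303 / 100 ∧
      0 ≤ (t1 * t2 + t1 * t3 + t2 * t3) - 303 / 100 * (t1 + t2 + t3) + 6 * (101 / 100) ^ 2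
        + 3 / 50 * (t1 + t2 - 303 / 100) * (t1 + t2 + t3 - 303 / 100) := by
  have h2 : 0 < t2 := by linarith
  have h3 : 0 < t3 := by linarith
  obtain ⟨a, ha, rfl⟩ : ∃ a, 0 < a ∧ t1 = 1 / a := ⟨1 / t1, by positivity, by simp⟩
  obtain ⟨b, hb, rfl⟩ : ∃ b, 0 < b ∧ t2 = 1 / b := ⟨1 / t2, by positivity, by simp⟩
  obtain ⟨u, hu, rfl⟩ : ∃ u, 0 < u ∧ t3 = 1 / u := ⟨1 / t3, by positivity, by simp⟩
  have hba : b ≤ a := (one_div_le_one_div ha hb).1 h12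
  have hub : u ≤ b := (one_div_le_one_div hb hu).1 h23
  have hP : 0 < a * b * u := by positivity
  have hA' : a + b + u ≤ 3 / 2 := by
    have : (a * b * u) * (1 / a * (1 / b) + 1 / a * (1 / u) + 1 / b * (1 / u)) ≤
        (a * b * u) * (3 / 2 * (1 / a * (1 / b) * (1 / u))) := mul_le_mul_of_nonneg_left hA hP.le
    field_simp at this
    linarith
  have hB' : 0 ≤ 109 / 100 - 53 / 50 * (a + b + u) + 2 / 3 * (a * b + u * (a + b)) := by
    have := mul_nonneg hP.le hB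
    have e : a * b * u * (109 / 100 * (1 / a * (1 / b) * (1 / u)) - 53 / 50 *
        (1 / a * (1 / b) + 1 / a * (1 / u) + 1 / b * (1 / u)) + 2 / 3 * (1 / a + 1 / b + 1 / u))
        = 109 / 100 - 53 / 50 * (a + b + u) + 2 / 3 * (a * b + u * (a + b)) := by
      field_simp; ring
    rwa [e] at this
  have hπ : a * b ≤ (a + b) ^ 2 / 4 := by nlinarith [sq_nonneg (a - b)]
  obtain ⟨hs, hφ⟩ := alg_two (a + b) u hu (by linarith) hA' (by linarith)
  have hn : 0 ≤ a + b - 303 / 100 * (a * b) := by nlinarith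
  have hu2 : u ≤ 1 / 2 := by linarith
  have hφ2 : 0 ≤ 53 / 50 * (a + b) + u - 303 / 100 * u * (a + b)
      - 303 / 100 * (a * b) * (53 / 50 - 101 / 50 * u) := by
    nlinarith [mul_le_mul_of_nonneg_right hπ (show 0 ≤ 53 / 50 - 101 / 50 * u by linarith)]
  have e1 : 1 / a + 1 / b - 303 / 100 = (a + b - 303 / 100 * (a * b)) / (a * b) := by
    field_simp; ring
  have n0 : 0 ≤ 1 / a + 1 / b - 303 / 100 := by rw [e1]; positivity
  refine ⟨n0, ?_⟩
  have e2 : (1 / a * (1 / b) + 1 / a * (1 / u) + 1 / b * (1 / u))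
      - 303 / 100 * (1 / a + 1 / b + 1 / u) + 6 * (101 / 100) ^ 2
      + 3 / 50 * (1 / a + 1 / b - 303 / 100) * (1 / u)
      = (53 / 50 * (a + b) + u - 303 / 100 * u * (a + b)
        - 303 / 100 * (a * b) * (53 / 50 - 101 / 50 * u)) / (a * b * u) := by
    field_simp; ring
  have e3 : 0 ≤ (53 / 50 * (a + b) + u - 303 / 100 * u * (a + b)
        - 303 / 100 * (a * b) * (53 / 50 - 101 / 50 * u)) / (a * b * u) := by positivity
  nlinarith [mul_nonneg n0 n0]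

/-- The main inequality in terms of the normalised first-order variations. -/
lemma algB (t1 t2 t3 x1 x2 x3 T : ℝ) (h12 : t1 ≤ t2) (h23 : t2 ≤ t3)
    (hx1 : 0 ≤ x1) (hx2 : 0 ≤ x2) (hx3 : 0 ≤ x3) (hT : 0 ≤ T) (hs : T + (x1 + x2 + x3) ≤ 3 / 2)
    (hn : 0 ≤ t1 + t2 - 303 / 100)
    (hA : 0 ≤ (t1 * t2 + t1 * t3 + t2 * t3) - 303 / 100 * (t1 + t2 + t3) + 6 * (101 / 100) ^ 2
        + 3 / 50 * (t1 + t2 - 303 / 100) * (t1 + t2 + t3 - 303 / 100)) :
    2 / 3 * ((t1 + t2 + t3 - 303 / 100) * (x1 * x2 + x1 * x3 + x2 * x3)) ≤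
      (53 / 50 - 2 / 3 * T) * ((t2 + t3 - 303 / 100) * x1 + (t1 + t3 - 303 / 100) * x2
        + (t1 + t2 - 303 / 100) * x3) := by
  set D := t1 + t2 + t3 - 303 / 100 with hD
  set n := t1 + t2 - 303 / 100 with hnn
  set N := (t2 + t3 - 303 / 100) * x1 + (t1 + t3 - 303 / 100) * x2 + n * x3 with hN
  set s := x1 + x2 + x3 with hss
  set A := (t1 * t2 + t1 * t3 + t2 * t3) - 303 / 100 * (t1 + t2 + t3) + 6 * (101 / 100) ^ 2 with hAA
  set e := x1 * x2 + x1 * x3 + x2 * x3 with he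
  have D0 : 0 < D := by rw [hD]; linarith
  have s0 : 0 ≤ s := by positivity
  have id : D * s * N - D ^ 2 * e - A * s ^ 2 = 1 / 2 * ((D * x1 + (101 / 100 - t1) * s) ^ 2
      + (D * x2 + (101 / 100 - t2) * s) ^ 2 + (D * x3 + (101 / 100 - t3) * s) ^ 2) := by
    simp only [hD, hN, hnn, hss, hAA, he]; ring
  have hN1 : n * s ≤ N := by
    simp only [hN, hss, hnn]
    nlinarith [mul_nonneg hx1 (show 0 ≤ t3 - t1 by linarith),
      mul_nonneg hx2 (show 0 ≤ t3 - t2 by linarith)]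
  have N0 : 0 ≤ N := le_trans (mul_nonneg hn s0) hN1
  have k1 : A * s ^ 2 ≤ D * s * N - D ^ 2 * e := by
    have : 0 ≤ 1 / 2 * ((D * x1 + (101 / 100 - t1) * s) ^ 2
      + (D * x2 + (101 / 100 - t2) * s) ^ 2 + (D * x3 + (101 / 100 - t3) * s) ^ 2) := by positivity
    rw [← id] at this
    linarith
  clear_value D n N s A e
  clear id hD hnn hN hss hAA he
  have k2 : n * s ^ 2 ≤ 3 / 2 * N := by
    have : s ≤ 3 / 2 := by linarith
    nlinarith [mul_nonneg (mul_nonneg hn s0) (show 0 ≤ 3 / 2 - s by linarith)]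
  have k3 : 0 ≤ D * ((3 / 50 * (3 / 2) + s) * N - D * e) := by
    nlinarith [mul_nonneg hA (sq_nonneg s), mul_le_mul_of_nonneg_left k2 D0.le]
  have k4 : 0 ≤ (3 / 50 * (3 / 2) + s) * N - D * e := nonneg_of_mul_nonneg_right k3 D0 |> fun h => h
  nlinarith [mul_nonneg N0 (show 0 ≤ 3 / 2 - s - T by linarith)]

end Pool.Agent.H677Z.Pav
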