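import Pool.Agent.H677Z.Pav.Cub

/-!
First and second order variation of the three roots, in the case of simple roots.
-/

namespace Pool.Agent.H677Z.Pav

open Polynomial Filter Topology

theorem jets {c : ℕ → ℕ → ℝ} (hc : Good2 c) (t1 t2 t3 : ℝ) (h0 : 0 < t1) (h12 : t1 < t2)
    (h23 : t2 < t3) (e2 : c 2 0 = c 3 0 * (t1 + t2 + t3))
    (e1 : c 1 0 = c 3 0 * (t1 * t2 + t1 * t3 + t2 * t3)) (e0 : c 0 0 = c 3 0 * (t1 * t2 * t3)) :
    ∃ d1 d2 d3 z1 z2 z3 : ℝ, 0 ≤ d1 ∧ 0 ≤ d2 ∧ 0 ≤ d3 ∧ z1 ≤ 0 ∧ z1 + z2 ≤ 0 ∧ z1 + z2 + z3 ≤ 0 ∧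
      c 2 1 = c 3 1 * (t1 + t2 + t3) + c 3 0 * (d1 + d2 + d3) ∧
      c 0 1 = c 3 1 * (t1 * t2 * t3) + c 3 0 * (d1 * (t2 * t3) + d2 * (t1 * t3) + d3 * (t1 * t2)) ∧
      c 2 2 = c 3 2 * (t1 + t2 + t3) + c 3 1 * (d1 + d2 + d3) + c 3 0 * (z1 + z2 + z3) ∧
      c 0 2 = c 3 2 * (t1 * t2 * t3) + c 3 1 * (d1 * (t2 * t3) + d2 * (t1 * t3) + d3 * (t1 * t2))
        + c 3 0 * (d1 * d2 * t3 + d1 * d3 * t2 + d2 * d3 * t1
          + (z1 * (t2 * t3) + z2 * (t1 * t3) + z3 * (t1 * t2))) := by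
  have hk : 0 < c 3 0 := by simpa [cR] using hc.lpos 0 le_rfl
  have hk' : c 3 0 ≠ 0 := hk.ne'
  obtain ⟨d1, d2, d3, hA, hB, hC⟩ := interp3 t1 t2 t3
    ((c 2 1 - c 3 1 * (t1 + t2 + t3)) / c 3 0)
    ((c 1 1 - c 3 1 * (t1 * t2 + t1 * t3 + t2 * t3)) / c 3 0)
    ((c 0 1 - c 3 1 * (t1 * t2 * t3)) / c 3 0) h12 h23
  rw [div_eq_iff hk'] at hA hB hC
  obtain ⟨z1, z2, z3, hA', hB', hC'⟩ := interp3 t1 t2 t3
    ((c 2 2 - c 3 2 * (t1 + t2 + t3) - c 3 1 * (d1 + d2 + d3)) / c 3 0)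
    ((c 1 2 - c 3 2 * (t1 * t2 + t1 * t3 + t2 * t3)
      - c 3 1 * (d1 * (t2 + t3) + d2 * (t1 + t3) + d3 * (t1 + t2))
      - c 3 0 * (d1 * d2 + d1 * d3 + d2 * d3)) / c 3 0)
    ((c 0 2 - c 3 2 * (t1 * t2 * t3) - c 3 1 * (d1 * (t2 * t3) + d2 * (t1 * t3) + d3 * (t1 * t2))
      - c 3 0 * (d1 * d2 * t3 + d1 * d3 * t2 + d2 * d3 * t1)) / c 3 0) h12 h23
  rw [div_eq_iff hk'] at hA' hB' hC'
  have f21 : c 2 1 = c 3 1 * (t1 + t2 + t3) + c 3 0 * (d1 + d2 + d3) := by linarith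
  have f11 : c 1 1 = c 3 1 * (t1 * t2 + t1 * t3 + t2 * t3)
      + c 3 0 * (d1 * (t2 + t3) + d2 * (t1 + t3) + d3 * (t1 + t2)) := by linarith
  have f01 : c 0 1 = c 3 1 * (t1 * t2 * t3)
      + c 3 0 * (d1 * (t2 * t3) + d2 * (t1 * t3) + d3 * (t1 * t2)) := by linarith
  have f22 : c 2 2 = c 3 2 * (t1 + t2 + t3) + c 3 1 * (d1 + d2 + d3)
      + c 3 0 * (z1 + z2 + z3) := by linarith
  have f12 : c 1 2 = c 3 2 * (t1 * t2 + t1 * t3 + t2 * t3)
      + c 3 1 * (d1 * (t2 + t3) + d2 * (t1 + t3) + d3 * (t1 + t2))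
      + c 3 0 * (d1 * d2 + d1 * d3 + d2 * d3
        + (z1 * (t2 + t3) + z2 * (t1 + t3) + z3 * (t1 + t2))) := by linarith
  have f02 : c 0 2 = c 3 2 * (t1 * t2 * t3)
      + c 3 1 * (d1 * (t2 * t3) + d2 * (t1 * t3) + d3 * (t1 * t2))
      + c 3 0 * (d1 * d2 * t3 + d1 * d3 * t2 + d2 * d3 * t1
          + (z1 * (t2 * t3) + z2 * (t1 * t3) + z3 * (t1 * t2))) := by linarith
  clear hA hB hC hA' hB' hC'
  set θ1 : ℂ → ℂ := fun y => t1 + d1 * y + z1 * y ^ 2 with hθ1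
  set θ2 : ℂ → ℂ := fun y => t2 + d2 * y + z2 * y ^ 2 with hθ2
  set θ3 : ℂ → ℂ := fun y => t3 + d3 * y + z3 * y ^ 2 with hθ3
  have J1 : Jet θ1 t1 d1 z1 := Jet.quad _ _ _
  have J2 : Jet θ2 t2 d2 z2 := Jet.quad _ _ _
  have J3 : Jet θ3 t3 d3 z3 := Jet.quad _ _ _
  obtain ⟨r2, hr2, E2⟩ := (Jet.cC (c 2)).diff ((Jet.cC (c 3)).mul ((J1.add J2).add J3))
    (by rw [e2]; push_cast; ring) (by rw [f21]; push_cast; ring) (by rw [f22]; push_cast; ring)
  obtain ⟨r1, hr1, E1⟩ := (Jet.cC (c 1)).diff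
    ((Jet.cC (c 3)).mul (((J1.mul J2).add (J1.mul J3)).add (J2.mul J3)))
    (by rw [e1]; push_cast; ring) (by rw [f11]; push_cast; ring) (by rw [f12]; push_cast; ring)
  obtain ⟨r0, hr0, E0⟩ := (Jet.cC (c 0)).diff ((Jet.cC (c 3)).mul ((J1.mul J2).mul J3))
    (by rw [e0]; push_cast; ring) (by rw [f01]; push_cast; ring) (by rw [f02]; push_cast; ring)
  have c3 := cC_cont (c 3)
  have hθ1c : Continuous θ1 := by simp only [hθ1]; fun_prop
  have hθ2c : Continuous θ2 := by simp only [hθ2]; fun_prop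
  have hθ3c : Continuous θ3 := by simp only [hθ3]; fun_prop
  have Ep : ∀ x y : ℂ, pC c x y = cC (c 3) y * ((x + θ1 y) * (x + θ2 y) * (x + θ3 y))
      + y ^ 3 * (r0 y + r1 y * x + r2 y * x ^ 2) := by
    intro x y; rw [pC, E2, E1, E0]; ring
  have I2 : Complex.I ^ 2 = -1 := Complex.I_sq
  have hz : ∀ f : ℕ → ℝ, cC f 0 = f 0 := by intro f; simp [cC]
  have top : (c 3 3 : ℂ) ≠ 0 := by exact_mod_cast hc.top.ne'
  have hkC : (c 3 0 : ℂ) ≠ 0 := by exact_mod_cast hk'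
  refine ⟨d1, d2, d3, z1, z2, z3, ?_, ?_, ?_, ?_, ?_, ?_, f21, f01, f22, f02⟩
  · apply d_nonneg hc t1 d1 (fun e => -(cC (c 3) (Complex.I * e) * (z1 *
      (-t1 - d1 * (Complex.I * e) + θ2 (Complex.I * e)) *
      (-t1 - d1 * (Complex.I * e) + θ3 (Complex.I * e)))) - Complex.I * e *
      (r0 (Complex.I * e) + r1 (Complex.I * e) * (-t1 - d1 * (Complex.I * e))
        + r2 (Complex.I * e) * (-t1 - d1 * (Complex.I * e)) ^ 2)) (by fun_prop)
    · intro e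
      have : -(t1 : ℂ) - d1 * (Complex.I * e) + θ1 (Complex.I * e) = -(z1 * e ^ 2) := by
        simp only [hθ1]; linear_combination (z1 * e ^ 2) * I2
      rw [Ep, this]
      linear_combination (Complex.I * e ^ 3 * (r0 (Complex.I * e) + r1 (Complex.I * e) *
        (-t1 - d1 * (Complex.I * e))
        + r2 (Complex.I * e) * (-t1 - d1 * (Complex.I * e)) ^ 2)) * I2
    · have : c 1 0 + 2 * c 2 0 * (-t1) + 3 * c 3 0 * t1 ^ 2 = c 3 0 * ((t2 - t1) * (t3 - t1)) := by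
        rw [e1, e2]; ring
      rw [this]
      exact mul_ne_zero hk' (mul_ne_zero (by linarith) (by linarith))
  · apply d_nonneg hc t2 d2 (fun e => -(cC (c 3) (Complex.I * e) * (z2 *
      (-t2 - d2 * (Complex.I * e) + θ1 (Complex.I * e)) *
      (-t2 - d2 * (Complex.I * e) + θ3 (Complex.I * e)))) - Complex.I * e *
      (r0 (Complex.I * e) + r1 (Complex.I * e) * (-t2 - d2 * (Complex.I * e))
        + r2 (Complex.I * e) * (-t2 - d2 * (Complex.I * e)) ^ 2)) (by fun_prop)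
    · intro e
      have : -(t2 : ℂ) - d2 * (Complex.I * e) + θ2 (Complex.I * e) = -(z2 * e ^ 2) := by
        simp only [hθ2]; linear_combination (z2 * e ^ 2) * I2
      rw [Ep, this]
      linear_combination (Complex.I * e ^ 3 * (r0 (Complex.I * e) + r1 (Complex.I * e) *
        (-t2 - d2 * (Complex.I * e))
        + r2 (Complex.I * e) * (-t2 - d2 * (Complex.I * e)) ^ 2)) * I2
    · have : c 1 0 + 2 * c 2 0 * (-t2) + 3 * c 3 0 * t2 ^ 2 = c 3 0 * ((t1 - t2) * (t3 - t2)) := by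
        rw [e1, e2]; ring
      rw [this]
      exact mul_ne_zero hk' (mul_ne_zero (by linarith) (by linarith))
  · apply d_nonneg hc t3 d3 (fun e => -(cC (c 3) (Complex.I * e) * (z3 *
      (-t3 - d3 * (Complex.I * e) + θ1 (Complex.I * e)) *
      (-t3 - d3 * (Complex.I * e) + θ2 (Complex.I * e)))) - Complex.I * e *
      (r0 (Complex.I * e) + r1 (Complex.I * e) * (-t3 - d3 * (Complex.I * e))
        + r2 (Complex.I * e) * (-t3 - d3 * (Complex.I * e)) ^ 2)) (by fun_prop)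
    · intro e
      have : -(t3 : ℂ) - d3 * (Complex.I * e) + θ3 (Complex.I * e) = -(z3 * e ^ 2) := by
        simp only [hθ3]; linear_combination (z3 * e ^ 2) * I2
      rw [Ep, this]
      linear_combination (Complex.I * e ^ 3 * (r0 (Complex.I * e) + r1 (Complex.I * e) *
        (-t3 - d3 * (Complex.I * e))
        + r2 (Complex.I * e) * (-t3 - d3 * (Complex.I * e)) ^ 2)) * I2
    · have : c 1 0 + 2 * c 2 0 * (-t3) + 3 * c 3 0 * t3 ^ 2 = c 3 0 * ((t1 - t3) * (t2 - t3)) := by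
        rw [e1, e2]; ring
      rw [this]
      exact mul_ne_zero hk' (mul_ne_zero (by linarith) (by linarith))
  · -- the top root
    refine concave_bdry (PH_hom c) ?_ ?_ ?_ (-t1) ?_ ?_ d1 z1
      (fun e => c 3 0 * ((t2 - t1 + z1 * e ^ 2) * (t3 - t1 + z1 * e ^ 2)))
      (fun e => -Complex.I * (r0 (Complex.I * e)
        + r1 (Complex.I * e) * (-t1 + z1 * e ^ 2 - d1 * (Complex.I * e))
        + r2 (Complex.I * e) * (-t1 + z1 * e ^ 2 - d1 * (Complex.I * e)) ^ 2)) ?_ ?_ ?_ ?_ ?_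
    · intro x y hx hy; rw [PH_one]; exact hc.stab x y hx (Or.inl hy)
    · intro x y hx hy; simp [PH, CH_zero, hx, hy, hc.top.ne']
    · intro ρ hρ
      rw [PH_one]
      have : pC c ρ ρ = (pR c ρ ρ : ℂ) := by simp [pC, pR, cC_ofReal]
      rw [this]; exact_mod_cast (hc.pos ρ ρ hρ hρ).ne'
    · linarith
    · intro x hx
      have : pC c x 0 = ((c 3 0 * ((x + t1) * (x + t2) * (x + t3)) : ℝ) : ℂ) := by
        rw [Ep]; simp [hz, hθ1, hθ2, hθ3]
      rw [PH_one, this]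
      have : 0 < c 3 0 * ((x + t1) * (x + t2) * (x + t3)) := by
        have a1 : 0 < x + t1 := by linarith
        have a2 : 0 < x + t2 := by linarith
        have a3 : 0 < x + t3 := by linarith
        positivity
      exact_mod_cast this.ne'
    · fun_prop
    · fun_prop
    · have : (t2 : ℂ) - t1 ≠ 0 := by exact_mod_cast (sub_pos.2 h12).ne'
      have : (t3 : ℂ) - t1 ≠ 0 := by exact_mod_cast (sub_pos.2 (h12.trans h23)).ne'
      simp [*]
    · intro e; rw [PH_one, Ep]; simp only [hz, hθ1, hθ2, hθ3]; push_cast; ring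
    · intro e
      have : ((-t1 : ℝ) : ℂ) + z1 * e ^ 2 - d1 * (Complex.I * e) + θ1 (Complex.I * e) = 0 := by
        simp only [hθ1]; push_cast; linear_combination (z1 * e ^ 2) * I2
      rw [PH_one, Ep, this]; push_cast
      linear_combination (Complex.I * e ^ 3 * (r0 (Complex.I * e)
        + r1 (Complex.I * e) * (-t1 + z1 * e ^ 2 - d1 * (Complex.I * e))
        + r2 (Complex.I * e) * (-t1 + z1 * e ^ 2 - d1 * (Complex.I * e)) ^ 2)) * I2
  · -- the sum of the two top roots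
    have EQ : ∀ x y : ℂ, QH c (x, y, 1) = cC (c 3) y ^ 2 *
        ((x + θ1 y + θ2 y) * (x + θ1 y + θ3 y) * (x + θ2 y + θ3 y)) + y ^ 3 *
        (x * (2 * cC (c 3) y * (x + θ1 y + θ2 y + θ3 y) * r2 y + y ^ 3 * r2 y ^ 2)
          + cC (c 3) y * (θ1 y * θ2 y + θ1 y * θ3 y + θ2 y * θ3 y) * r2 y
          + r1 y * cC (c 3) y * (x + θ1 y + θ2 y + θ3 y) + y ^ 3 * r1 y * r2 y
          - cC (c 3) y * r0 y) := by
      intro x y; rw [QH_one, E2, E1, E0]; ring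
    set W : ℂ → ℂ → ℂ := fun x y =>
        (x * (2 * cC (c 3) y * (x + θ1 y + θ2 y + θ3 y) * r2 y + y ^ 3 * r2 y ^ 2)
          + cC (c 3) y * (θ1 y * θ2 y + θ1 y * θ3 y + θ2 y * θ3 y) * r2 y
          + r1 y * cC (c 3) y * (x + θ1 y + θ2 y + θ3 y) + y ^ 3 * r1 y * r2 y
          - cC (c 3) y * r0 y) with hW
    have EQ' : ∀ x y : ℂ, QH c (x, y, 1) = cC (c 3) y ^ 2 *
        ((x + θ1 y + θ2 y) * (x + θ1 y + θ3 y) * (x + θ2 y + θ3 y)) + y ^ 3 * W x y := EQ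
    refine concave_bdry (QH_hom c) ?_ ?_ ?_ (-(t1 + t2)) ?_ ?_ (d1 + d2) (z1 + z2)
      (fun e => c 3 0 ^ 2 * ((t3 - t2 + (z1 + z2) * e ^ 2) * (t3 - t1 + (z1 + z2) * e ^ 2)))
      (fun e => -Complex.I *
        W (-(t1 + t2) + (z1 + z2) * e ^ 2 - (d1 + d2) * (Complex.I * e)) (Complex.I * e))
        ?_ ?_ ?_ ?_ ?_
    · intro x y hx hy
      obtain ⟨u, v, w, hu, hv, hw, h2, h1, h0⟩ := hc.factor y (Or.inl hy)
      have : QH c (x, y, 1) = cC (c 3) y ^ 2 * ((x + u + v) * (x + u + w) * (x + v + w)) := by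
        rw [QH_one, h2, h1, h0]; ring
      rw [this]
      refine mul_ne_zero (pow_ne_zero _ (hc.lead y (Or.inl hy))) (mul_ne_zero (mul_ne_zero ?_ ?_) ?_)
        <;> apply ne_zero_of_im_pos <;> simp <;> linarith
    · intro x y hx hy; simp [QH, RH, CH_zero, hx, hy, hc.top.ne']
    · intro ρ hρ
      obtain ⟨u, v, w, hu, hv, hw, h2, h1, h0⟩ := hc.rfactor ρ hρ
      have : QH c (ρ, ρ, 1) = ((cR (c 3) ρ ^ 2 * ((ρ + u + v) * (ρ + u + w) * (ρ + v + w)) : ℝ) : ℂ) := by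
        rw [QH_one]; simp only [cC_ofReal]; rw [h2, h1, h0]; push_cast; ring
      rw [this]
      have : 0 < cR (c 3) ρ ^ 2 * ((ρ + u + v) * (ρ + u + w) * (ρ + v + w)) := by
        have a0 := hc.lpos ρ hρ
        have a1 : 0 < ρ + u + v := by linarith
        have a2 : 0 < ρ + u + w := by linarith
        have a3 : 0 < ρ + v + w := by linarith
        positivity
      exact_mod_cast this.ne'
    · linarith
    · intro x hx
      have : QH c (x, 0, 1) = ((c 3 0 ^ 2 * ((x + t1 + t2) * (x + t1 + t3) * (x + t2 + t3)) : ℝ) : ℂ) := by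
        rw [EQ']; simp [hz, hθ1, hθ2, hθ3]
      rw [this]
      have : 0 < c 3 0 ^ 2 * ((x + t1 + t2) * (x + t1 + t3) * (x + t2 + t3)) := by
        have a1 : 0 < x + t1 + t2 := by linarith
        have a2 : 0 < x + t1 + t3 := by linarith
        have a3 : 0 < x + t2 + t3 := by linarith
        positivity
      exact_mod_cast this.ne'
    · fun_prop
    · simp only [hW]; fun_prop
    · have : (t3 : ℂ) - t2 ≠ 0 := by exact_mod_cast (sub_pos.2 h23).ne'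
      have : (t3 : ℂ) - t1 ≠ 0 := by exact_mod_cast (sub_pos.2 (h12.trans h23)).ne'
      simp [*]
    · intro e; rw [EQ']; simp only [hz, hθ1, hθ2, hθ3]; push_cast; ring
    · intro e
      have : ((-(t1 + t2) : ℝ) : ℂ) + ((z1 + z2 : ℝ) : ℂ) * e ^ 2 - ((d1 + d2 : ℝ) : ℂ) * (Complex.I * e)
          + θ1 (Complex.I * e) + θ2 (Complex.I * e) = 0 := by
        simp only [hθ1, hθ2]; push_cast; linear_combination ((z1 + z2) * e ^ 2) * I2
      rw [EQ', this]; push_cast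
      linear_combination (Complex.I * e ^ 3 *
        W (-(t1 + t2) + (z1 + z2) * e ^ 2 - (d1 + d2) * (Complex.I * e)) (Complex.I * e)) * I2
  · -- the sum of the three roots
    have ER : ∀ x y : ℂ, RH c (x, y, 1) = cC (c 3) y * (x + θ1 y + θ2 y + θ3 y) + y ^ 3 * r2 y := by
      intro x y; rw [RH_one, E2]; ring
    refine concave_bdry (RH_hom c) ?_ ?_ ?_ (-(t1 + t2 + t3)) ?_ ?_ (d1 + d2 + d3) (z1 + z2 + z3)
      (fun _ => c 3 0) (fun e => -Complex.I * r2 (Complex.I * e)) ?_ ?_ ?_ ?_ ?_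
    · intro x y hx hy
      obtain ⟨u, v, w, hu, hv, hw, h2, h1, h0⟩ := hc.factor y (Or.inl hy)
      have : RH c (x, y, 1) = cC (c 3) y * (x + u + v + w) := by
        rw [RH_one, h2]; ring
      rw [this]
      refine mul_ne_zero (hc.lead y (Or.inl hy)) ?_
      apply ne_zero_of_im_pos; simp; linarith
    · intro x y hx hy; simp [RH, CH_zero, hx, hy, hc.top.ne']
    · intro ρ hρ
      obtain ⟨u, v, w, hu, hv, hw, h2, h1, h0⟩ := hc.rfactor ρ hρ
      have : RH c (ρ, ρ, 1) = ((cR (c 3) ρ * (ρ + u + v + w) : ℝ) : ℂ) := by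
        rw [RH_one]; simp only [cC_ofReal]; rw [h2]; push_cast; ring
      rw [this]
      have : 0 < cR (c 3) ρ * (ρ + u + v + w) := mul_pos (hc.lpos ρ hρ) (by linarith)
      exact_mod_cast this.ne'
    · linarith
    · intro x hx
      have : RH c (x, 0, 1) = ((c 3 0 * (x + t1 + t2 + t3) : ℝ) : ℂ) := by
        rw [ER]; simp [hz, hθ1, hθ2, hθ3]
      rw [this]
      have : 0 < c 3 0 * (x + t1 + t2 + t3) := mul_pos hk (by linarith)
      exact_mod_cast this.ne'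
    · fun_prop
    · fun_prop
    · exact hkC
    · intro e; rw [ER]; simp only [hz, hθ1, hθ2, hθ3]; push_cast; ring
    · intro e
      have : ((-(t1 + t2 + t3) : ℝ) : ℂ) + ((z1 + z2 + z3 : ℝ) : ℂ) * e ^ 2
          - ((d1 + d2 + d3 : ℝ) : ℂ) * (Complex.I * e)
          + θ1 (Complex.I * e) + θ2 (Complex.I * e) + θ3 (Complex.I * e) = 0 := by
        simp only [hθ1, hθ2, hθ3]; push_cast; linear_combination ((z1 + z2 + z3) * e ^ 2) * I2
      rw [ER, this]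
      linear_combination (Complex.I * e ^ 3 * r2 (Complex.I * e)) * I2

end Pool.Agent.H677Z.Pav
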