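import Pool.Agent.H677Z.Pav.Gard

/-!
Real stable polynomials of bidegree (3,3): roots, second-order jets of the roots and the
concavity of their partial sums.
-/

namespace Pool.Agent.H677Z.Pav

open Polynomial Filter Topology

lemma cubic_factor (a0 a1 a2 a3 : ℂ) (h : a3 ≠ 0) :
    ∃ u v w : ℂ, a2 = a3 * (u + v + w) ∧ a1 = a3 * (u * v + u * w + v * w) ∧
      a0 = a3 * (u * v * w) := by
  let P : Cubic ℂ := ⟨a3, a2, a1, a0⟩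
  have ha : P.a ≠ 0 := h
  obtain ⟨x, y, z, h3⟩ := (Cubic.splits_iff_roots_eq_three (φ := RingHom.id ℂ) ha).1
    (IsAlgClosed.splits _)
  have hb := Cubic.b_eq_three_roots ha h3
  have hc := Cubic.c_eq_three_roots ha h3
  have hd := Cubic.d_eq_three_roots ha h3
  simp only [RingHom.id_apply, P] at hb hc hd
  exact ⟨-x, -y, -z, by rw [hb]; ring, by rw [hc]; ring, by rw [hd]; ring⟩

lemma cubic_factor_stable (a0 a1 a2 a3 : ℂ) (h : a3 ≠ 0)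
    (hS : ∀ x : ℂ, 0 < x.im → a0 + a1 * x + a2 * x ^ 2 + a3 * x ^ 3 ≠ 0) :
    ∃ u v w : ℂ, 0 ≤ u.im ∧ 0 ≤ v.im ∧ 0 ≤ w.im ∧ a2 = a3 * (u + v + w) ∧
      a1 = a3 * (u * v + u * w + v * w) ∧ a0 = a3 * (u * v * w) := by
  obtain ⟨u, v, w, h2, h1, h0⟩ := cubic_factor a0 a1 a2 a3 h
  refine ⟨u, v, w, ?_, ?_, ?_, h2, h1, h0⟩
  · by_contra hc
    exact hS (-u) (by simpa using hc) (by rw [h2, h1, h0]; ring)
  · by_contra hc
    exact hS (-v) (by simpa using hc) (by rw [h2, h1, h0]; ring)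
  · by_contra hc
    exact hS (-w) (by simpa using hc) (by rw [h2, h1, h0]; ring)

lemma real_cubic_aux (a0 a1 a2 a3 : ℝ)
    (hS : ∀ x : ℂ, 0 < x.im → (a0 : ℂ) + a1 * x + a2 * x ^ 2 + a3 * x ^ 3 ≠ 0)
    (hP : ∀ x : ℝ, 0 ≤ x → 0 < a0 + a1 * x + a2 * x ^ 2 + a3 * x ^ 3) (u : ℂ) (hu : 0 ≤ u.im)
    (h : (a0 : ℂ) + a1 * (-u) + a2 * (-u) ^ 2 + a3 * (-u) ^ 3 = 0) :
    ∃ t : ℝ, 0 < t ∧ u = t := by
  have h1 : u.im = 0 := by
    by_contra hc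
    have hpos : 0 < u.im := lt_of_le_of_ne hu (Ne.symm hc)
    apply hS (starRingEnd ℂ (-u)) (by simpa using hpos)
    have := congrArg (starRingEnd ℂ) h
    simpa using this
  have h2 : u = (u.re : ℂ) := by apply Complex.ext <;> simp [h1]
  refine ⟨u.re, ?_, h2⟩
  by_contra hc
  have h3 := hP (-u.re) (by linarith [not_lt.1 hc])
  rw [h2] at h
  have h4 : a0 + a1 * (-u.re) + a2 * (-u.re) ^ 2 + a3 * (-u.re) ^ 3 = 0 := by exact_mod_cast h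
  linarith

lemma real_cubic (a0 a1 a2 a3 : ℝ) (h3 : 0 < a3)
    (hS : ∀ x : ℂ, 0 < x.im → (a0 : ℂ) + a1 * x + a2 * x ^ 2 + a3 * x ^ 3 ≠ 0)
    (hP : ∀ x : ℝ, 0 ≤ x → 0 < a0 + a1 * x + a2 * x ^ 2 + a3 * x ^ 3) :
    ∃ t1 t2 t3 : ℝ, 0 < t1 ∧ t1 ≤ t2 ∧ t2 ≤ t3 ∧ a2 = a3 * (t1 + t2 + t3) ∧
      a1 = a3 * (t1 * t2 + t1 * t3 + t2 * t3) ∧ a0 = a3 * (t1 * t2 * t3) := by
  obtain ⟨u, v, w, hu, hv, hw, h2, h1, h0⟩ :=
    cubic_factor_stable a0 a1 a2 a3 (by exact_mod_cast h3.ne') hS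
  obtain ⟨a, ha, rfl⟩ := real_cubic_aux a0 a1 a2 a3 hS hP u hu (by rw [h2, h1, h0]; ring)
  obtain ⟨b, hb, rfl⟩ := real_cubic_aux a0 a1 a2 a3 hS hP v hv (by rw [h2, h1, h0]; ring)
  obtain ⟨c, hc, rfl⟩ := real_cubic_aux a0 a1 a2 a3 hS hP w hw (by rw [h2, h1, h0]; ring)
  have e2 : a2 = a3 * (a + b + c) := by exact_mod_cast h2
  have e1 : a1 = a3 * (a * b + a * c + b * c) := by exact_mod_cast h1
  have e0 : a0 = a3 * (a * b * c) := by exact_mod_cast h0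
  rcases le_total a b with hab | hab <;> rcases le_total b c with hbc | hbc <;>
    rcases le_total a c with hac | hac
  · exact ⟨a, b, c, ha, hab, hbc, e2, e1, e0⟩
  · exact ⟨a, b, c, ha, hab, hbc, e2, e1, e0⟩
  · exact ⟨a, c, b, ha, hac, hbc, by rw [e2]; ring, by rw [e1]; ring, by rw [e0]; ring⟩
  · exact ⟨c, a, b, hc, hac, hab, by rw [e2]; ring, by rw [e1]; ring, by rw [e0]; ring⟩
  · exact ⟨b, a, c, hb, hab, hac, by rw [e2]; ring, by rw [e1]; ring, by rw [e0]; ring⟩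
  · exact ⟨b, c, a, hb, hbc, hac, by rw [e2]; ring, by rw [e1]; ring, by rw [e0]; ring⟩
  · exact ⟨c, b, a, hc, hbc, hab, by rw [e2]; ring, by rw [e1]; ring, by rw [e0]; ring⟩
  · exact ⟨c, b, a, hc, hbc, hab, by rw [e2]; ring, by rw [e1]; ring, by rw [e0]; ring⟩

def cR (f : ℕ → ℝ) (y : ℝ) : ℝ := f 0 + f 1 * y + f 2 * y ^ 2 + f 3 * y ^ 3

noncomputable def cC (f : ℕ → ℝ) (y : ℂ) : ℂ := f 0 + f 1 * y + f 2 * y ^ 2 + f 3 * y ^ 3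

def pR (c : ℕ → ℕ → ℝ) (x y : ℝ) : ℝ :=
  cR (c 0) y + cR (c 1) y * x + cR (c 2) y * x ^ 2 + cR (c 3) y * x ^ 3

noncomputable def pC (c : ℕ → ℕ → ℝ) (x y : ℂ) : ℂ :=
  cC (c 0) y + cC (c 1) y * x + cC (c 2) y * x ^ 2 + cC (c 3) y * x ^ 3

lemma cC_ofReal (f : ℕ → ℝ) (y : ℝ) : cC f y = (cR f y : ℂ) := by simp [cC, cR]

lemma cC_cont (f : ℕ → ℝ) : Continuous (cC f) := by unfold cC; fun_prop

def U (y : ℂ) : Prop := 0 < y.im ∨ (y.im = 0 ∧ 0 ≤ y.re)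

structure Good2 (c : ℕ → ℕ → ℝ) : Prop where
  stab : ∀ x y : ℂ, 0 < x.im → U y → pC c x y ≠ 0
  lead : ∀ y : ℂ, U y → cC (c 3) y ≠ 0
  pos : ∀ x y : ℝ, 0 ≤ x → 0 ≤ y → 0 < pR c x y
  lpos : ∀ y : ℝ, 0 ≤ y → 0 < cR (c 3) y
  top : 0 < c 3 3

lemma Good2.factor {c : ℕ → ℕ → ℝ} (hc : Good2 c) (y : ℂ) (hy : U y) :
    ∃ u v w : ℂ, 0 ≤ u.im ∧ 0 ≤ v.im ∧ 0 ≤ w.im ∧ cC (c 2) y = cC (c 3) y * (u + v + w) ∧
      cC (c 1) y = cC (c 3) y * (u * v + u * w + v * w) ∧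
      cC (c 0) y = cC (c 3) y * (u * v * w) :=
  cubic_factor_stable _ _ _ _ (hc.lead y hy) (fun x hx => hc.stab x y hx hy)

lemma Good2.rfactor {c : ℕ → ℕ → ℝ} (hc : Good2 c) (y : ℝ) (hy : 0 ≤ y) :
    ∃ t1 t2 t3 : ℝ, 0 < t1 ∧ t1 ≤ t2 ∧ t2 ≤ t3 ∧ cR (c 2) y = cR (c 3) y * (t1 + t2 + t3) ∧
      cR (c 1) y = cR (c 3) y * (t1 * t2 + t1 * t3 + t2 * t3) ∧
      cR (c 0) y = cR (c 3) y * (t1 * t2 * t3) := by
  apply real_cubic _ _ _ _ (hc.lpos y hy)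
  · intro x hx
    have := hc.stab x y hx (Or.inr ⟨by simp, by simpa using hy⟩)
    simpa [pC, cC_ofReal] using this
  · intro x hx; exact hc.pos x y hx hy

def Jet (f : ℂ → ℂ) (a b c : ℂ) : Prop :=
  ∃ r : ℂ → ℂ, Continuous r ∧ ∀ y, f y = a + b * y + c * y ^ 2 + y ^ 3 * r y

lemma Jet.add {f g : ℂ → ℂ} {a b c a' b' c' : ℂ} (h : Jet f a b c) (h' : Jet g a' b' c') :
    Jet (fun y => f y + g y) (a + a') (b + b') (c + c') := by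
  obtain ⟨r, hr, e⟩ := h
  obtain ⟨s, hs, e'⟩ := h'
  exact ⟨fun y => r y + s y, by fun_prop, fun y => by simp only [e, e']; ring⟩

lemma Jet.mul {f g : ℂ → ℂ} {a b c a' b' c' : ℂ} (h : Jet f a b c) (h' : Jet g a' b' c') :
    Jet (fun y => f y * g y) (a * a') (a * b' + b * a') (a * c' + b * b' + c * a') := by
  obtain ⟨r, hr, e⟩ := h
  obtain ⟨s, hs, e'⟩ := h'
  refine ⟨fun y => b * c' + c * b' + c * c' * y + r y * (a' + b' * y + c' * y ^ 2)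
    + s y * (a + b * y + c * y ^ 2) + y ^ 3 * r y * s y, by fun_prop, fun y => ?_⟩
  simp only [e, e']; ring

lemma Jet.quad (t d z : ℂ) : Jet (fun y => t + d * y + z * y ^ 2) t d z :=
  ⟨fun _ => 0, continuous_const, fun y => by ring⟩

lemma Jet.cC (f : ℕ → ℝ) : Jet (cC f) (f 0) (f 1) (f 2) :=
  ⟨fun _ => f 3, continuous_const, fun y => by simp only [Pav.cC]; ring⟩

lemma Jet.diff {f g : ℂ → ℂ} {a b c a' b' c' : ℂ} (h : Jet f a b c) (h' : Jet g a' b' c')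
    (e0 : a = a') (e1 : b = b') (e2 : c = c') :
    ∃ r : ℂ → ℂ, Continuous r ∧ ∀ y, f y = g y + y ^ 3 * r y := by
  obtain ⟨r, hr, e⟩ := h
  obtain ⟨s, hs, e'⟩ := h'
  subst e0 e1 e2
  exact ⟨fun y => r y - s y, by fun_prop, fun y => by simp only [e, e']; ring⟩

noncomputable def CH (f : ℕ → ℝ) (v : V) : ℂ :=
  f 0 * v.2.2 ^ 3 + f 1 * (v.2.1 * v.2.2 ^ 2) + f 2 * (v.2.1 ^ 2 * v.2.2) + f 3 * v.2.1 ^ 3

lemma CH_hom (f : ℕ → ℝ) : HomP 3 (CH f) :=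
  ((((HomP.cZ.pow 3).cmul (f 0)).add
    (((HomP.cY.mul (HomP.cZ.pow 2)).cmul (f 1)))).add
    ((((HomP.cY.pow 2).mul HomP.cZ).cmul (f 2)))).add ((HomP.cY.pow 3).cmul (f 3))

lemma CH_one (f : ℕ → ℝ) (x y : ℂ) : CH f (x, y, 1) = cC f y := by simp [CH, cC]

lemma CH_zero (f : ℕ → ℝ) (x y : ℂ) : CH f (x, y, 0) = f 3 * y ^ 3 := by simp [CH]

noncomputable def PH (c : ℕ → ℕ → ℝ) (v : V) : ℂ :=
  CH (c 0) v * v.2.2 ^ 3 + CH (c 1) v * (v.1 * v.2.2 ^ 2) + CH (c 2) v * (v.1 ^ 2 * v.2.2)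
    + CH (c 3) v * v.1 ^ 3

lemma PH_hom (c : ℕ → ℕ → ℝ) : HomP 6 (PH c) :=
  ((((CH_hom (c 0)).mul (HomP.cZ.pow 3)).add
    ((CH_hom (c 1)).mul (HomP.cX.mul (HomP.cZ.pow 2)))).add
    ((CH_hom (c 2)).mul ((HomP.cX.pow 2).mul HomP.cZ))).add ((CH_hom (c 3)).mul (HomP.cX.pow 3))

noncomputable def RH (c : ℕ → ℕ → ℝ) (v : V) : ℂ := CH (c 3) v * v.1 + CH (c 2) v * v.2.2

lemma RH_hom (c : ℕ → ℕ → ℝ) : HomP 4 (RH c) :=
  ((CH_hom (c 3)).mul HomP.cX).add ((CH_hom (c 2)).mul HomP.cZ)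

noncomputable def QH (c : ℕ → ℕ → ℝ) (v : V) : ℂ :=
  v.1 * RH c v ^ 2 + CH (c 1) v * v.2.2 ^ 2 * RH c v - CH (c 0) v * CH (c 3) v * v.2.2 ^ 3

lemma QH_hom (c : ℕ → ℕ → ℝ) : HomP 9 (QH c) :=
  ((HomP.cX.mul ((RH_hom c).pow 2)).add
    (((CH_hom (c 1)).mul (HomP.cZ.pow 2)).mul (RH_hom c))).sub
    (((CH_hom (c 0)).mul (CH_hom (c 3))).mul (HomP.cZ.pow 3))

lemma PH_one (c : ℕ → ℕ → ℝ) (x y : ℂ) : PH c (x, y, 1) = pC c x y := by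
  simp [PH, pC, CH_one]

lemma RH_one (c : ℕ → ℕ → ℝ) (x y : ℂ) : RH c (x, y, 1) = cC (c 3) y * x + cC (c 2) y := by
  simp [RH, CH_one]

lemma QH_one (c : ℕ → ℕ → ℝ) (x y : ℂ) : QH c (x, y, 1) =
    x * (cC (c 3) y * x + cC (c 2) y) ^ 2 + cC (c 1) y * (cC (c 3) y * x + cC (c 2) y)
      - cC (c 0) y * cC (c 3) y := by
  simp [QH, RH_one, CH_one]

lemma ne_zero_of_im_pos {z : ℂ} (h : 0 < z.im) : z ≠ 0 := by
  rintro rfl; simp at h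

lemma deriv_bound {c : ℕ → ℕ → ℝ} (hc : Good2 c) (x y : ℂ) (hx : 0 < x.im) (hy : U y) :
    ‖cC (c 1) y + 2 * cC (c 2) y * x + 3 * cC (c 3) y * x ^ 2‖ * x.im ≤ 3 * ‖pC c x y‖ := by
  obtain ⟨u, v, w, hu, hv, hw, h2, h1, h0⟩ := hc.factor y hy
  have e1 : cC (c 1) y + 2 * cC (c 2) y * x + 3 * cC (c 3) y * x ^ 2 =
      cC (c 3) y * ((x + u) * (x + v) + (x + u) * (x + w) + (x + v) * (x + w)) := by
    rw [h2, h1]; ring
  have e2 : pC c x y = cC (c 3) y * ((x + u) * (x + v) * (x + w)) := by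
    rw [pC, h2, h1, h0]; ring
  have b : ∀ s : ℂ, 0 ≤ s.im → x.im ≤ ‖x + s‖ := fun s hs =>
    calc x.im ≤ (x + s).im := by simp [hs]
      _ ≤ ‖x + s‖ := le_trans (le_abs_self _) (Complex.abs_im_le_norm _)
  have bu := b u hu
  have bv := b v hv
  have bw := b w hw
  rw [e1, e2, norm_mul, norm_mul, norm_mul, norm_mul]
  have t1 : ‖(x + u) * (x + v) + (x + u) * (x + w) + (x + v) * (x + w)‖ ≤
      ‖x + u‖ * ‖x + v‖ + ‖x + u‖ * ‖x + w‖ + ‖x + v‖ * ‖x + w‖ := by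
    refine (norm_add_le _ _).trans ?_
    refine (add_le_add (norm_add_le _ _) le_rfl).trans ?_
    simp only [norm_mul]; exact le_rfl
  set A := ‖x + u‖
  set B := ‖x + v‖
  set D := ‖x + w‖
  set m := x.im
  have hA : 0 ≤ A := norm_nonneg _
  have hB : 0 ≤ B := norm_nonneg _
  have hD : 0 ≤ D := norm_nonneg _
  have k : (A * B + A * D + B * D) * m ≤ 3 * (A * B * D) := by
    have k1 : A * B * m ≤ A * B * D := mul_le_mul_of_nonneg_left bw (mul_nonneg hA hB)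
    have k2 : A * D * m ≤ A * D * B := mul_le_mul_of_nonneg_left bv (mul_nonneg hA hD)
    have k3 : B * D * m ≤ B * D * A := mul_le_mul_of_nonneg_left bu (mul_nonneg hB hD)
    nlinarith
  have hn := norm_nonneg (cC (c 3) y)
  calc ‖cC (c 3) y‖ * ‖(x + u) * (x + v) + (x + u) * (x + w) + (x + v) * (x + w)‖ * m
      ≤ ‖cC (c 3) y‖ * (A * B + A * D + B * D) * m := by gcongr
    _ = ‖cC (c 3) y‖ * ((A * B + A * D + B * D) * m) := by ring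
    _ ≤ ‖cC (c 3) y‖ * (3 * (A * B * D)) := by gcongr
    _ = 3 * (‖cC (c 3) y‖ * (A * B * D)) := by ring

lemma d_nonneg {c : ℕ → ℕ → ℝ} (hc : Good2 c) (t d : ℝ) (G : ℝ → ℂ) (hG : Continuous G)
    (h : ∀ e : ℝ, pC c (-t - d * (Complex.I * e)) (Complex.I * e) = e ^ 2 * G e)
    (hx : c 1 0 + 2 * c 2 0 * (-t) + 3 * c 3 0 * t ^ 2 ≠ 0) : 0 ≤ d := by
  by_contra hd
  have hd : d < 0 := not_le.1 hd
  set H : ℝ → ℂ := fun e => cC (c 1) (Complex.I * e)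
    + 2 * cC (c 2) (Complex.I * e) * (-t - d * (Complex.I * e))
    + 3 * cC (c 3) (Complex.I * e) * (-t - d * (Complex.I * e)) ^ 2 with hH
  have hHc : Continuous H := by
    simp only [hH, cC]; fun_prop
  have hineq : ∀ e : ℝ, 0 < e → ‖H e‖ * (-d) ≤ 3 * e * ‖G e‖ := by
    intro e he
    have him : (-(t : ℂ) - d * (Complex.I * e)).im = -d * e := by simp
    have := deriv_bound hc (-t - d * (Complex.I * e)) (Complex.I * e)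
      (by rw [him]; nlinarith) (Or.inl (by simpa using he))
    rw [h, him, norm_mul, norm_pow, Complex.norm_real, Real.norm_eq_abs, abs_of_pos he] at this
    have h2 : e * (‖H e‖ * (-d)) ≤ e * (3 * e * ‖G e‖) := by
      simp only [hH]; nlinarith
    exact le_of_mul_le_mul_left h2 he
  have l1 : Tendsto (fun e : ℝ => ‖H e‖ * (-d)) (𝓝[>] 0) (𝓝 (‖H 0‖ * (-d))) :=
    ((hHc.norm.mul continuous_const).tendsto 0).mono_left nhdsWithin_le_nhds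
  have l2 : Tendsto (fun e : ℝ => 3 * e * ‖G e‖) (𝓝[>] 0) (𝓝 (3 * 0 * ‖G 0‖)) :=
    (((continuous_const.mul continuous_id).mul hG.norm).tendsto 0).mono_left nhdsWithin_le_nhds
  have := le_of_tendsto_of_tendsto l1 l2 (by
    filter_upwards [self_mem_nhdsWithin] with e he using hineq e he)
  have h0 : H 0 ≠ 0 := by
    have : H 0 = ((c 1 0 + 2 * c 2 0 * (-t) + 3 * c 3 0 * t ^ 2 : ℝ) : ℂ) := by
      simp [hH, cC]
    rw [this]; exact_mod_cast hx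
  have h3 : 0 < ‖H 0‖ * (-d) := mul_pos (norm_pos_iff.2 h0) (by linarith)
  linarith

lemma interp3 (t1 t2 t3 A B C : ℝ) (h12 : t1 < t2) (h23 : t2 < t3) :
    ∃ d1 d2 d3 : ℝ, A = d1 + d2 + d3 ∧ B = d1 * (t2 + t3) + d2 * (t1 + t3) + d3 * (t1 + t2) ∧
      C = d1 * (t2 * t3) + d2 * (t1 * t3) + d3 * (t1 * t2) := by
  have a : t2 - t1 ≠ 0 := by linarith [sub_pos.2 h12] |> fun (h : 0 < t2 - t1) => h.ne'
  have b : t3 - t2 ≠ 0 := (sub_pos.2 h23).ne'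
  have c : t3 - t1 ≠ 0 := (sub_pos.2 (h12.trans h23)).ne'
  refine ⟨(A * t1 ^ 2 - B * t1 + C) / ((t2 - t1) * (t3 - t1)),
    -(A * t2 ^ 2 - B * t2 + C) / ((t2 - t1) * (t3 - t2)),
    (A * t3 ^ 2 - B * t3 + C) / ((t3 - t1) * (t3 - t2)), ?_, ?_, ?_⟩ <;>
  field_simp <;> ring

end Pool.Agent.H677Z.Pav
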