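import Mathlib

/-!
Elementary estimates for tight frames.
-/

namespace Pool.Agent.H677Z.Pav

open Matrix
open scoped ComplexOrder

variable {ι : Type} [Fintype ι] [DecidableEq ι] {H : Type} [NormedAddCommGroup H]
  [InnerProductSpace ℂ H]

omit [DecidableEq ι] in
lemma gram_form (u : ι → H) (s : ℝ) (v : ι → ℂ) :
    (star v ⬝ᵥ (((s : ℂ) • gram ℂ u) *ᵥ v)).re = s * ‖∑ i, v i • u i‖ ^ 2 := by
  rw [smul_mulVec, dotProduct_smul, star_dotProduct_gram_mulVec, smul_eq_mul,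
    Complex.re_ofReal_mul, inner_self_eq_norm_sq_to_K]
  congr 1
  norm_cast

omit [DecidableEq ι] in
lemma gram_psd (u : ι → H) (s : ℝ) (hs : 0 ≤ s) : ((s : ℂ) • gram ℂ u).PosSemidef :=
  (posSemidef_gram ℂ u).smul (by exact_mod_cast hs)

omit [DecidableEq ι] in
lemma cs_sum (a v : ι → ℂ) : ‖∑ i, a i * v i‖ ^ 2 ≤ (∑ i, ‖a i‖ ^ 2) * ∑ i, ‖v i‖ ^ 2 := by
  have h1 : ‖∑ i, a i * v i‖ ≤ ∑ i, ‖a i‖ * ‖v i‖ := by
    refine (norm_sum_le _ _).trans (le_of_eq ?_)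
    simp
  calc ‖∑ i, a i * v i‖ ^ 2 ≤ (∑ i, ‖a i‖ * ‖v i‖) ^ 2 := by gcongr
    _ ≤ _ := Finset.sum_mul_sq_le_sq_mul_sq _ _ _

omit [DecidableEq ι] in
lemma bessel_upper (u : ι → H) (B : ℝ) (hB : 0 ≤ B)
    (h : ∀ x : H, ∑ i, ‖(inner ℂ (u i) x : ℂ)‖ ^ 2 ≤ B * ‖x‖ ^ 2) (v : ι → ℂ) :
    ‖∑ i, v i • u i‖ ^ 2 ≤ B * ∑ i, ‖v i‖ ^ 2 := by
  set ξ := ∑ i, v i • u i with hξ
  have e : (inner ℂ ξ ξ : ℂ) = ∑ i, inner ℂ ξ (u i) * v i := by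
    conv_lhs => rw [show (inner ℂ ξ ξ : ℂ) = inner ℂ ξ (∑ i, v i • u i) by rw [← hξ]]
    rw [inner_sum]; simp [inner_smul_right, mul_comm]
  have h1 := cs_sum (fun i => inner ℂ ξ (u i)) v
  rw [← e, inner_self_eq_norm_sq_to_K] at h1
  have h2 : ∑ i, ‖(inner ℂ ξ (u i) : ℂ)‖ ^ 2 ≤ B * ‖ξ‖ ^ 2 := by
    simpa only [norm_inner_symm ξ] using h ξ
  have hS : 0 ≤ ∑ i, ‖v i‖ ^ 2 := Finset.sum_nonneg fun _ _ => sq_nonneg _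
  simp only [norm_pow, Complex.coe_algebraMap, Complex.norm_real, norm_norm] at h1
  have h3 : (‖ξ‖ ^ 2) ^ 2 ≤ B * ‖ξ‖ ^ 2 * ∑ i, ‖v i‖ ^ 2 :=
    h1.trans (mul_le_mul_of_nonneg_right h2 hS)
  rcases eq_or_lt_of_le (sq_nonneg ‖ξ‖) with h0 | h0
  · rw [← h0]; positivity
  · apply le_of_mul_le_mul_left _ h0
    nlinarith

lemma coord_bound (u : ι → H) (hu : ∀ i, ‖u i‖ = 1)
    (h : ∀ x : H, ∑ i, ‖(inner ℂ (u i) x : ℂ)‖ ^ 2 ≤ 2 * ‖x‖ ^ 2) (v : ι → ℂ) (j : ι) :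
    2 * ‖v j‖ ^ 2 ≤ 201 / 200 * ∑ i, ‖v i‖ ^ 2 + 201 / 2 * ‖∑ i, v i • u i‖ ^ 2 := by
  set ξ := ∑ i, v i • u i with hξ
  set ρ : ι → ℂ := fun i => (if i = j then 1 else 0) - inner ℂ (u j) (u i) / 2 with hρ
  have e : v j = ∑ i, ρ i * v i + inner ℂ (u j) ξ / 2 := by
    simp only [hρ, hξ, inner_sum, inner_smul_right, sub_mul, Finset.sum_sub_distrib, ite_mul,
      one_mul, zero_mul, Finset.sum_ite_eq', Finset.mem_univ, if_true, Finset.sum_div]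
    have : ∑ i, (inner ℂ (u j) (u i) : ℂ) / 2 * v i = ∑ i, v i * inner ℂ (u j) (u i) / 2 :=
      Finset.sum_congr rfl fun i _ => by ring
    rw [this]; ring
  have hρ2 : ∑ i, ‖ρ i‖ ^ 2 ≤ 1 / 2 := by
    have a : ∀ i, ‖ρ i‖ ^ 2 = ‖(inner ℂ (u i) (u j) : ℂ)‖ ^ 2 / 4 := by
      intro i
      by_cases hi : i = j
      · subst hi
        simp only [hρ, if_true, inner_self_eq_norm_sq_to_K, hu i]; norm_num
      · simp only [hρ, hi, if_false, zero_sub, norm_neg, norm_div, norm_inner_symm (u j)]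
        norm_num; ring
    simp only [a, ← Finset.sum_div]
    have := h (u j)
    rw [hu j] at this
    linarith
  have hS : 0 ≤ ∑ i, ‖v i‖ ^ 2 := Finset.sum_nonneg fun _ _ => sq_nonneg _
  have hA : ‖∑ i, ρ i * v i‖ ^ 2 ≤ 1 / 2 * ∑ i, ‖v i‖ ^ 2 :=
    (cs_sum ρ v).trans (mul_le_mul_of_nonneg_right hρ2 hS)
  have hB : ‖(inner ℂ (u j) ξ : ℂ) / 2‖ ≤ ‖ξ‖ / 2 := by
    rw [norm_div]
    have := norm_inner_le_norm (𝕜 := ℂ) (u j) ξ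
    rw [hu j, one_mul] at this
    simp only [Complex.norm_ofNat]; linarith
  have hC : ‖v j‖ ≤ ‖∑ i, ρ i * v i‖ + ‖ξ‖ / 2 := by
    calc ‖v j‖ = ‖∑ i, ρ i * v i + inner ℂ (u j) ξ / 2‖ := by rw [← e]
      _ ≤ _ := (norm_add_le _ _).trans (by linarith)
  have hD : ‖v j‖ ^ 2 ≤ (‖∑ i, ρ i * v i‖ + ‖ξ‖ / 2) ^ 2 := by gcongr
  nlinarith [sq_nonneg (‖∑ i, ρ i * v i‖ - 100 * ‖ξ‖)]

end Pool.Agent.H677Z.Pav
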