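import Mathlib

/-!
Homogeneous real polynomials in three variables (as functions), a Garding-type lemma, and the
second-order boundary inequality that follows from it.
-/

namespace Pool.Agent.H677Z.Pav

open Polynomial Filter Topology

/-- Norm of the value of a complex polynomial as a product over its roots. -/
lemma norm_eval_eq (g : ℂ[X]) (t : ℂ) :
    ‖g.eval t‖ = ‖g.leadingCoeff‖ * (g.roots.map (fun r => ‖t - r‖)).prod := by
  rw [(IsAlgClosed.splits g).eval_eq_prod_roots t, norm_mul]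
  congr 1
  have := map_multiset_prod (normHom : ℂ →*₀ ℝ) (g.roots.map (fun r => t - r))
  simpa [Multiset.map_map, Function.comp_def] using this

lemma lower_bound (g : ℂ[X]) (d : ℕ) (hd : g.natDegree ≤ d)
    (h : ∀ t : ℂ, 0 < t.im → g.eval t ≠ 0) (t : ℂ) (ht : 0 < t.im) :
    ‖g.coeff d‖ * t.im ^ d ≤ ‖g.eval t‖ := by
  by_cases h0 : g.coeff d = 0
  · simp [h0]
  have hdeg : g.natDegree = d := le_antisymm hd (le_natDegree_of_ne_zero h0)
  have hg : g ≠ 0 := by rintro rfl; simp at h0
  rw [norm_eval_eq, leadingCoeff, hdeg]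
  apply mul_le_mul_of_nonneg_left _ (norm_nonneg _)
  have hc : g.roots.card = d := by rw [← (IsAlgClosed.splits g).natDegree_eq_card_roots, hdeg]
  have : (g.roots.map (fun _ => t.im)).prod = t.im ^ d := by simp [hc]
  rw [← this]
  apply Multiset.prod_map_le_prod_map₀
  · intro _ _; exact ht.le
  · intro r hr
    have hr' : g.eval r = 0 := (mem_roots hg).1 hr
    have : r.im ≤ 0 := by
      by_contra hc; exact h r (not_le.1 hc) hr'
    calc t.im ≤ (t - r).im := by simp; linarith
      _ ≤ ‖t - r‖ := le_trans (le_abs_self _) (Complex.abs_im_le_norm _)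

lemma mono_real_roots (g : ℂ[X]) (h : ∀ t : ℂ, t.im ≠ 0 → g.eval t ≠ 0) (e : ℝ) :
    ‖g.eval 0‖ ≤ ‖g.eval (Complex.I * e)‖ := by
  by_cases hg : g = 0
  · simp [hg]
  rw [norm_eval_eq, norm_eval_eq]
  apply mul_le_mul_of_nonneg_left _ (norm_nonneg _)
  apply Multiset.prod_map_le_prod_map₀
  · intro _ _; exact norm_nonneg _
  · intro r hr
    have hr' : g.eval r = 0 := (mem_roots hg).1 hr
    have h0 : r.im = 0 := by
      by_contra hc; exact h r hc hr'
    have h1 : ‖0 - r‖ = |(Complex.I * e - r).re| := by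
      have : r = (r.re : ℂ) := by apply Complex.ext <;> simp [h0]
      rw [this]; simp
    rw [h1]; exact Complex.abs_re_le_norm _

abbrev V := ℂ × ℂ × ℂ

/-- A real homogeneous polynomial of degree `d` in three variables, seen as a function. -/
structure HomP (d : ℕ) (F : V → ℂ) : Prop where
  cont : Continuous F
  hom : ∀ (c : ℂ) (v : V), F (c • v) = c ^ d * F v
  conj : ∀ x y z : ℂ, F (starRingEnd ℂ x, starRingEnd ℂ y, starRingEnd ℂ z)
    = starRingEnd ℂ (F (x, y, z))
  poly : ∀ a v : V, ∃ g : ℂ[X], g.natDegree ≤ d ∧ g.coeff d = F v ∧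
    ∀ t, g.eval t = F (a + t • v)

lemma HomP.add {d : ℕ} {F G : V → ℂ} (hF : HomP d F) (hG : HomP d G) :
    HomP d (fun v => F v + G v) where
  cont := hF.cont.add hG.cont
  hom c v := by rw [hF.hom, hG.hom]; ring
  conj x y z := by rw [hF.conj, hG.conj]; simp
  poly a v := by
    obtain ⟨f, f1, f2, f3⟩ := hF.poly a v
    obtain ⟨g, g1, g2, g3⟩ := hG.poly a v
    refine ⟨f + g, (natDegree_add_le _ _).trans (max_le f1 g1), by simp [f2, g2], ?_⟩
    intro t; simp [f3, g3]

lemma HomP.mul {d e : ℕ} {F G : V → ℂ} (hF : HomP d F) (hG : HomP e G) :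
    HomP (d + e) (fun v => F v * G v) where
  cont := hF.cont.mul hG.cont
  hom c v := by rw [hF.hom, hG.hom]; ring
  conj x y z := by rw [hF.conj, hG.conj]; simp
  poly a v := by
    obtain ⟨f, f1, f2, f3⟩ := hF.poly a v
    obtain ⟨g, g1, g2, g3⟩ := hG.poly a v
    refine ⟨f * g, natDegree_mul_le.trans (add_le_add f1 g1), ?_, ?_⟩
    · rw [coeff_mul_add_eq_of_natDegree_le f1 g1, f2, g2]
    · intro t; simp [f3, g3]

lemma HomP.const (c : ℝ) : HomP 0 (fun _ => (c : ℂ)) where
  cont := continuous_const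
  hom _ _ := by simp
  conj _ _ _ := by simp
  poly _ _ := ⟨C (c : ℂ), by simp, by simp, by simp⟩

lemma HomP.cmul {d : ℕ} {F : V → ℂ} (c : ℝ) (hF : HomP d F) :
    HomP d (fun v => (c : ℂ) * F v) := by
  simpa using (HomP.const c).mul hF

lemma HomP.neg {d : ℕ} {F : V → ℂ} (hF : HomP d F) : HomP d (fun v => - F v) := by
  simpa using hF.cmul (-1)

lemma HomP.sub {d : ℕ} {F G : V → ℂ} (hF : HomP d F) (hG : HomP d G) :
    HomP d (fun v => F v - G v) := by
  simpa [sub_eq_add_neg] using hF.add hG.neg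

lemma HomP.cX : HomP 1 (fun v => v.1) where
  cont := continuous_fst
  hom _ _ := by simp
  conj _ _ _ := rfl
  poly a v := ⟨C v.1 * X + C a.1, by compute_degree, by simp, by intro t; simp; ring⟩

lemma HomP.cY : HomP 1 (fun v => v.2.1) where
  cont := by fun_prop
  hom _ _ := by simp
  conj _ _ _ := rfl
  poly a v := ⟨C v.2.1 * X + C a.2.1, by compute_degree, by simp, by intro t; simp; ring⟩

lemma HomP.cZ : HomP 1 (fun v => v.2.2) where
  cont := by fun_prop
  hom _ _ := by simp
  conj _ _ _ := rfl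
  poly a v := ⟨C v.2.2 * X + C a.2.2, by compute_degree, by simp, by intro t; simp; ring⟩

lemma HomP.pow {d : ℕ} {F : V → ℂ} (hF : HomP d F) (n : ℕ) :
    HomP (d * n) (fun v => F v ^ n) := by
  induction n with
  | zero => simpa using HomP.const 1
  | succ n ih => simpa [pow_succ, mul_add] using ih.mul hF

lemma HomP.congr {d e : ℕ} {F G : V → ℂ} (hF : HomP d F) (h : d = e) (hG : ∀ v, F v = G v) :
    HomP e G := by
  have : F = G := funext hG
  subst this h; exact hF

def IsRe (w : V) : Prop := w.1.im = 0 ∧ w.2.1.im = 0 ∧ w.2.2.im = 0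

def Hyp (F : V → ℂ) (e : V) : Prop :=
  ∀ w : V, IsRe w → ∀ t : ℂ, t.im ≠ 0 → F (w + t • e) ≠ 0

theorem garding {d : ℕ} {F : V → ℂ} (hF : HomP d F) {e v : V} (he : Hyp F e) (hv : IsRe v)
    (hpos : ∀ ρ : ℝ, 0 ≤ ρ → F (v + (ρ : ℂ) • e) ≠ 0) : Hyp F v := by
  have hv0 : F v ≠ 0 := by simpa using hpos 0 le_rfl
  -- the main estimate in the upper half plane
  have key : ∀ w : V, IsRe w → ∀ t : ℂ, 0 < t.im → F (w + t • v) ≠ 0 := by
    intro w hw
    have main : ∀ α : ℝ, 0 < α → ∀ t : ℂ, 0 < t.im →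
        ‖F v‖ * t.im ^ d ≤ ‖F ((Complex.I * α) • e + w + t • v)‖ := by
      intro α hα
      set G : ℝ → ℂ → ℂ := fun β t => F ((Complex.I * α) • e + (β : ℂ) • w + t • v) with hG
      have hGc : Continuous (fun p : ℝ × ℂ => G p.1 p.2) := by
        simp only [hG]
        exact hF.cont.comp (by fun_prop)
      have hreal : ∀ β t, t.im = 0 → G β t ≠ 0 := by
        intro β t ht
        have h1 : IsRe ((β : ℂ) • w + t • v) := by
          obtain ⟨a, b, c⟩ := hw
          obtain ⟨a', b', c'⟩ := hv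
          refine ⟨?_, ?_, ?_⟩ <;> simp [a, b, c, a', b', c', ht]
        have := he _ h1 (Complex.I * α) (by simpa using hα.ne')
        simp only [hG]
        convert this using 2
        abel
      set S : Set ℝ := {β | ∀ t : ℂ, 0 < t.im → G β t ≠ 0} with hS
      have hlb : ∀ β ∈ S, ∀ t : ℂ, 0 < t.im → ‖F v‖ * t.im ^ d ≤ ‖G β t‖ := by
        intro β hβ t ht
        obtain ⟨g, g1, g2, g3⟩ := hF.poly ((Complex.I * α) • e + (β : ℂ) • w) v
        have := lower_bound g d g1 (fun s hs => by rw [g3]; exact hβ s hs) t ht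
        rwa [g2, g3] at this
      have hclosed : IsClosed S := by
        have : S = ⋂ t : {t : ℂ // 0 < t.im}, {β | ‖F v‖ * t.1.im ^ d ≤ ‖G β t.1‖} := by
          ext β
          simp only [Set.mem_iInter, Set.mem_ofPred_eq]
          constructor
          · intro h t; exact hlb β h t.1 t.2
          · intro h t ht h0
            have h1 := h ⟨t, ht⟩
            simp only [h0, norm_zero] at h1
            have : 0 < ‖F v‖ * t.im ^ d := mul_pos (norm_pos_iff.2 hv0) (pow_pos ht _)
            linarith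
        rw [this]
        apply isClosed_iInter
        intro t
        apply isClosed_le continuous_const
        exact (hGc.comp (by fun_prop : Continuous (fun β : ℝ => (β, t.1)))).norm
      have hopen : IsOpen S := by
        rw [isOpen_iff_eventually]
        intro β0 hβ0
        -- no zeros for large t
        obtain ⟨η, hη, hη'⟩ : ∃ η > 0, ∀ a : V, ‖a‖ < η → F (v + a) ≠ 0 := by
          have : ∀ᶠ u in 𝓝 v, F u ≠ 0 := hF.cont.continuousAt.eventually_ne hv0
          obtain ⟨η, hη, h⟩ := Metric.eventually_nhds_iff.1 this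
          refine ⟨η, hη, fun a ha => h ?_⟩
          simpa [dist_eq_norm] using ha
        set A : ℝ → V := fun β => (Complex.I * α) • e + (β : ℂ) • w with hA
        have hAc : Continuous A := by simp only [hA]; fun_prop
        set R : ℝ := (‖A β0‖ + 1) / η with hR
        have hK : IsCompact ({t : ℂ | 0 ≤ t.im} ∩ Metric.closedBall 0 R) :=
          (isCompact_closedBall 0 R).inter_left (isClosed_le continuous_const Complex.continuous_im)
        have h1 : ∀ᶠ β in 𝓝 β0, ∀ t ∈ ({t : ℂ | 0 ≤ t.im} ∩ Metric.closedBall 0 R), G β t ≠ 0 := by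
          apply hK.eventually_forall_of_forall_eventually
          intro t ht
          have : G β0 t ≠ 0 := by
            rcases eq_or_lt_of_le (show 0 ≤ t.im from ht.1) with h | h
            · exact hreal _ _ h.symm
            · exact hβ0 t h
          exact (hGc.continuousAt (x := (β0, t))).eventually_ne this
        have h2 : ∀ᶠ β in 𝓝 β0, ‖A β‖ < ‖A β0‖ + 1 :=
          hAc.norm.continuousAt.eventually_lt continuousAt_const (by linarith)
        filter_upwards [h1, h2] with β hβ1 hβ2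
        intro t ht
        by_cases hle : ‖t‖ ≤ R
        · exact hβ1 t ⟨ht.le, by simpa using hle⟩
        · have hlt : R < ‖t‖ := not_le.1 hle
          have ht0 : t ≠ 0 := by rintro rfl; simp at ht
          have hnt : 0 < ‖t‖ := norm_pos_iff.2 ht0
          have e1 : G β t = t ^ d * F (v + t⁻¹ • A β) := by
            rw [← hF.hom]; simp only [hG, hA]
            congr 1
            rw [smul_add, smul_smul, mul_inv_cancel₀ ht0, one_smul]; abel
          rw [e1]
          apply mul_ne_zero (pow_ne_zero _ ht0)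
          apply hη'
          rw [norm_smul, norm_inv, inv_mul_lt_iff₀ hnt]
          rw [hR, div_lt_iff₀ hη] at hlt
          linarith
      have h0 : (0 : ℝ) ∈ S := by
        intro t ht
        have ht0 : t ≠ 0 := by rintro rfl; simp at ht
        have e1 : G 0 t = t ^ d * F (v + (Complex.I * α / t) • e) := by
          rw [← hF.hom]; simp only [hG]
          congr 1
          rw [smul_add, smul_smul, mul_div_cancel₀ _ ht0]; simp; abel
        rw [e1]
        apply mul_ne_zero (pow_ne_zero _ ht0)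
        by_cases him : (Complex.I * α / t).im = 0
        · have hre : 0 ≤ (Complex.I * α / t).re := by
            rw [Complex.div_re]; simp
            exact div_nonneg (mul_nonneg hα.le ht.le) (Complex.normSq_nonneg _)
          have : Complex.I * α / t = ((Complex.I * α / t).re : ℂ) := by
            apply Complex.ext <;> simp [him]
          rw [this]; exact hpos _ hre
        · exact he v hv _ him
      have hall : S = Set.univ := IsClopen.eq_univ ⟨hclosed, hopen⟩ ⟨0, h0⟩
      intro t ht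
      have := hlb 1 (by rw [hall]; trivial) t ht
      simpa [hG] using this
    intro t ht h0
    have hc : Continuous (fun α : ℝ => ‖F ((Complex.I * α) • e + w + t • v)‖) :=
      (hF.cont.comp (by fun_prop)).norm
    have hlim : Tendsto (fun α : ℝ => ‖F ((Complex.I * α) • e + w + t • v)‖) (𝓝[>] 0)
        (𝓝 ‖F (w + t • v)‖) := by
      have := (hc.tendsto 0).mono_left (nhdsWithin_le_nhds (s := Set.Ioi 0))
      simpa using this
    have hle : ‖F v‖ * t.im ^ d ≤ ‖F (w + t • v)‖ := by
      apply ge_of_tendsto hlim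
      filter_upwards [self_mem_nhdsWithin] with α hα
      exact main α hα t ht
    rw [h0, norm_zero] at hle
    have : 0 < ‖F v‖ * t.im ^ d := mul_pos (norm_pos_iff.2 hv0) (pow_pos ht _)
    linarith
  intro w hw t ht
  rcases lt_or_gt_of_ne ht with h | h
  · have h1 : IsRe (-w) := by
      obtain ⟨a, b, c⟩ := hw
      refine ⟨?_, ?_, ?_⟩ <;> simp [a, b, c]
    have h2 := key (-w) h1 (-t) (by simpa using h)
    have e1 : F (w + t • v) = (-1) ^ d * F (-w + (-t) • v) := by
      rw [← hF.hom]; congr 1; simp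
    rw [e1]; exact mul_ne_zero (pow_ne_zero _ (by norm_num)) h2
  · exact key w hw t h

/-- Stability in two variables gives hyperbolicity in the direction `(1,1,0)`. -/
lemma hyp_of_stable {d : ℕ} {F : V → ℂ} (hF : HomP d F)
    (hS : ∀ x y : ℂ, 0 < x.im → 0 < y.im → F (x, y, 1) ≠ 0)
    (hT : ∀ x y : ℂ, x ≠ 0 → y ≠ 0 → F (x, y, 0) ≠ 0) : Hyp F (1, 1, 0) := by
  rintro ⟨a, b, c⟩ ⟨ha, hb, hc⟩ t ht
  simp only at ha hb hc
  have e0 : ((a, b, c) : V) + t • ((1, 1, 0) : V) = (a + t, b + t, c) := by simp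
  rw [e0]
  by_cases hc0 : c = 0
  · subst hc0
    apply hT
    · intro h; apply ht; have := congrArg Complex.im h; simpa [ha] using this
    · intro h; apply ht; have := congrArg Complex.im h; simpa [hb] using this
  · have e1 : F (a + t, b + t, c) = c ^ d * F ((a + t) / c, (b + t) / c, 1) := by
      rw [← hF.hom]; congr 1; simp [mul_div_cancel₀ _ hc0]
    rw [e1]
    apply mul_ne_zero (pow_ne_zero _ hc0)
    have hcr : c = (c.re : ℂ) := by apply Complex.ext <;> simp [hc]
    have hcr0 : c.re ≠ 0 := by intro h; apply hc0; rw [hcr, h]; simp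
    have i1 : ((a + t) / c).im = t.im / c.re := by rw [hcr]; simp [ha]
    have i2 : ((b + t) / c).im = t.im / c.re := by rw [hcr]; simp [hb]
    have hne : t.im / c.re ≠ 0 := div_ne_zero ht hcr0
    rcases lt_or_gt_of_ne hne with h | h
    · have := hS (starRingEnd ℂ ((a + t) / c)) (starRingEnd ℂ ((b + t) / c))
        (by rw [Complex.conj_im, i1]; linarith) (by rw [Complex.conj_im, i2]; linarith)
      have h2 := hF.conj ((a + t) / c) ((b + t) / c) 1
      rw [map_one] at h2
      rw [h2] at this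
      intro h0; apply this; rw [h0]; simp
    · exact hS _ _ (by rwa [i1]) (by rwa [i2])

/-- Second-order concavity of the top root. -/
theorem concave_bdry {d : ℕ} {F : V → ℂ} (hF : HomP d F)
    (hS : ∀ x y : ℂ, 0 < x.im → 0 < y.im → F (x, y, 1) ≠ 0)
    (hT : ∀ x y : ℂ, x ≠ 0 → y ≠ 0 → F (x, y, 0) ≠ 0)
    (hD : ∀ ρ : ℝ, 0 ≤ ρ → F (ρ, ρ, 1) ≠ 0)
    (xs : ℝ) (hxs : xs < 0) (hX : ∀ x : ℝ, xs < x → F (x, 0, 1) ≠ 0)
    (dd σ : ℝ) (ψ r : ℝ → ℂ) (hψ : Continuous ψ) (hr : Continuous r) (hψ0 : ψ 0 ≠ 0)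
    (h1 : ∀ e : ℝ, F (xs + σ * e ^ 2, 0, 1) = σ * e ^ 2 * ψ e)
    (h2 : ∀ e : ℝ, F (xs + σ * e ^ 2 - dd * (Complex.I * e), Complex.I * e, 1) = e ^ 3 * r e) :
    σ ≤ 0 := by
  by_contra hσ
  have hσ : 0 < σ := not_le.1 hσ
  have H1 := hyp_of_stable hF hS hT
  have H2 : Hyp F (0, 0, 1) := by
    apply garding hF H1 ⟨by simp, by simp, by simp⟩
    intro ρ hρ
    simpa using hD ρ hρ
  have hineq : ∀ e : ℝ, 0 < e → σ * ‖ψ e‖ ≤ e * ‖r e‖ := by
    intro e he
    set x0 : ℝ := xs + σ * e ^ 2 with hx0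
    have hx0' : xs < x0 := by rw [hx0]; have := mul_pos hσ (pow_pos he 2); linarith
    have H3 : Hyp F ((x0 : ℂ), 0, 1) := by
      apply garding hF H2 ⟨by simp, by simp, by simp⟩
      intro ρ hρ
      have hρ1 : (1 + ρ : ℂ) ≠ 0 := by
        have : (0 : ℝ) < 1 + ρ := by linarith
        exact_mod_cast this.ne'
      have e1 : F (((x0 : ℂ), 0, 1) + (ρ : ℂ) • ((0, 0, 1) : V))
          = (1 + ρ : ℂ) ^ d * F (((x0 / (1 + ρ) : ℝ) : ℂ), 0, 1) := by
        rw [← hF.hom]; congr 1; simp [mul_div_cancel₀ _ hρ1]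
      rw [e1]
      apply mul_ne_zero (pow_ne_zero _ hρ1)
      apply hX
      rw [lt_div_iff₀ (by linarith)]
      nlinarith
    obtain ⟨g, -, -, g3⟩ := hF.poly ((x0 : ℂ), 0, 1) (-(dd : ℂ), 1, 0)
    have hroots : ∀ t : ℂ, t.im ≠ 0 → g.eval t ≠ 0 := by
      intro t ht
      have ht0 : t ≠ 0 := by rintro rfl; simp at ht
      have e1 : F (((x0 : ℂ), 0, 1) + t • ((-(dd : ℂ), 1, 0) : V))
          = t ^ d * F ((-(dd : ℂ), 1, 0) + t⁻¹ • (((x0 : ℂ), 0, 1) : V)) := by
        rw [← hF.hom]; congr 1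
        rw [smul_add, smul_smul, mul_inv_cancel₀ ht0, one_smul]; abel
      rw [g3, e1]
      apply mul_ne_zero (pow_ne_zero _ ht0)
      apply H3 _ ⟨by simp, by simp, by simp⟩
      rw [Complex.inv_im]
      exact div_ne_zero (neg_ne_zero.2 ht) (Complex.normSq_pos.2 ht0).ne'
    have hm := mono_real_roots g hroots e
    rw [g3, g3] at hm
    have e2 : (((x0 : ℂ), 0, 1) : V) + (0 : ℂ) • ((-(dd : ℂ), 1, 0) : V)
        = ((xs : ℂ) + σ * e ^ 2, 0, 1) := by simp [hx0]
    have e3 : (((x0 : ℂ), 0, 1) : V) + (Complex.I * e) • ((-(dd : ℂ), 1, 0) : V)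
        = ((xs : ℂ) + σ * e ^ 2 - dd * (Complex.I * e), Complex.I * e, 1) := by
      simp [hx0]; ring
    rw [e2, e3, h1, h2] at hm
    simp only [norm_mul, norm_pow, Complex.norm_real, Real.norm_eq_abs, abs_of_pos hσ,
      abs_of_pos he] at hm
    have he2 : 0 < e ^ 2 := pow_pos he 2
    have : e ^ 2 * (σ * ‖ψ e‖) ≤ e ^ 2 * (e * ‖r e‖) := by nlinarith
    exact le_of_mul_le_mul_left this he2
  have l1 : Tendsto (fun e : ℝ => σ * ‖ψ e‖) (𝓝[>] 0) (𝓝 (σ * ‖ψ 0‖)) :=
    ((continuous_const.mul hψ.norm).tendsto 0).mono_left nhdsWithin_le_nhds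
  have l2 : Tendsto (fun e : ℝ => e * ‖r e‖) (𝓝[>] 0) (𝓝 (0 * ‖r 0‖)) :=
    ((continuous_id.mul hr.norm).tendsto 0).mono_left nhdsWithin_le_nhds
  have := le_of_tendsto_of_tendsto l1 l2 (by
    filter_upwards [self_mem_nhdsWithin] with e he using hineq e he)
  have h3 : 0 < σ * ‖ψ 0‖ := mul_pos hσ (norm_pos_iff.2 hψ0)
  linarith

end Pool.Agent.H677Z.Pav
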