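import Pool.Agent.H677Z.Pav.Sel

/-!
The starting point of the barrier argument (any number of parts).
-/

namespace Pool.Agent.H677Z.Pav

open Matrix Filter Topology
open scoped ComplexOrder

variable {ι : Type} [Fintype ι] [DecidableEq ι] {r : ℕ}

lemma det_affine (N : Matrix ι ι ℂ) (q : ι → ℂ × ℂ) (j : ι) (w y : ℂ) :
    (Mq N (Function.update q j (1, w + y))).det =
      (Mq N (Function.update q j (1, w))).det + y * (Mq N (Function.update q j (0, 1))).det := by
  have h : ∀ p : ℂ × ℂ, Mq N (Function.update q j p) =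
      updateRow (Mq N q) j (fun l => p.1 * N j l + if j = l then p.2 else 0) := by
    intro p; ext i l
    by_cases hi : i = j
    · subst hi; simp [Mq]
    · simp [Mq, hi]
  rw [h, h, h, ← det_updateRow_smul, ← det_updateRow_add]
  congr 2
  funext l
  by_cases hl : j = l <;> simp [hl, add_assoc]

lemma det_pos {N : Matrix ι ι ℂ} (hN : N.PosSemidef) (q : ι → ℂ × ℂ) (h1 : ∀ i, 0 ≤ (q i).1)
    (h2 : ∀ i, 0 < (q i).2) : 0 < (Mq N q).det := by
  have := Lam_pos (r := 1) hN (fun i => pr (fun _ => q i))
    (fun i => pr_NN _ (fun _ => h1 i) (fun _ => h2 i))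
  rw [Lam_pr] at this
  simpa using this

/-- At the starting point the polynomial in one variable is an `r`-th power. -/
lemma init_power {N : Matrix ι ι ℂ} (hN : N.PosSemidef) (g b b' : ℝ) (hb0 : 0 ≤ b)
    (hbb : b < b')
    (hb : ∀ (v : ι → ℂ) (j : ι), g * ‖v j‖ ^ 2 ≤ b * ∑ i, ‖v i‖ ^ 2 + (star v ⬝ᵥ (N *ᵥ v)).re)
    (P : ι → Prop) [DecidablePred P] (w : ι → ℝ) (hw : ∀ i, P i → b' ≤ w i) (j : ι) (hj : P j) :
    ∃ m0 m1 : ℝ, 0 < m0 ∧ 0 < m1 ∧ g * m1 < m0 ∧ ∀ y : ℝ,
      Lam N (Function.update (fun i => if P i then (E (w i) : St r) else Del) j (E ((w j : ℂ) + y)))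
        = (((m0 + y * m1) ^ r : ℝ) : ℂ) := by
  set q : ι → ℂ × ℂ := fun i => if P i then (1, (w i : ℂ)) else (0, 1) with hq
  have q1 : ∀ i, 0 ≤ (q i).1 := by intro i; simp only [hq]; split_ifs <;> simp
  have q2 : ∀ i, 0 < (q i).2 := by
    intro i; simp only [hq]; split_ifs with h
    · have := hw i h; simp; linarith
    · simp
  have p0 : 0 < (Mq N (Function.update q j (1, (w j : ℂ)))).det := by
    apply det_pos hN
    · intro i; by_cases hi : i = j
      · subst hi; simp
      · simpa [hi] using q1 i
    · intro i; by_cases hi : i = j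
      · subst hi; have := hw i hj; simp; linarith
      · simpa [hi] using q2 i
  have p1 : 0 < (Mq N (Function.update q j (0, 1))).det := by
    apply det_pos hN
    · intro i; by_cases hi : i = j
      · subst hi; simp
      · simpa [hi] using q1 i
    · intro i; by_cases hi : i = j
      · subst hi; simp
      · simpa [hi] using q2 i
  obtain ⟨m0, hm0⟩ : ∃ m : ℝ, (Mq N (Function.update q j (1, (w j : ℂ)))).det = m :=
    ⟨(Mq N (Function.update q j (1, (w j : ℂ)))).det.re,
      by apply Complex.ext <;> simp [← (Complex.lt_def.1 p0).2]⟩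
  obtain ⟨m1, hm1⟩ : ∃ m : ℝ, (Mq N (Function.update q j (0, 1))).det = m :=
    ⟨(Mq N (Function.update q j (0, 1))).det.re,
      by apply Complex.ext <;> simp [← (Complex.lt_def.1 p1).2]⟩
  rw [hm0] at p0
  rw [hm1] at p1
  have m0p : 0 < m0 := by exact_mod_cast p0
  have m1p : 0 < m1 := by exact_mod_cast p1
  refine ⟨m0, m1, m0p, m1p, ?_, ?_⟩
  · by_contra hc
    have hc : m0 ≤ g * m1 := not_lt.1 hc
    set y : ℝ := -(m0 / m1) with hy
    have hy1 : -g ≤ y := by
      rw [hy, neg_le_neg_iff, div_le_iff₀ m1p]; exact hc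
    have hdet : (Mq N (Function.update q j (1, (w j : ℂ) + y))).det = 0 := by
      rw [det_affine, hm0, hm1, hy]
      have : (m1 : ℂ) ≠ 0 := by exact_mod_cast m1p.ne'
      push_cast; field_simp; ring
    obtain ⟨v, hv, h0⟩ := exists_mulVec_eq_zero_iff.2 hdet
    have hterm : ∀ i, (star (v i) * (N *ᵥ v) i).re + b' * ‖v i‖ ^ 2
        + (if i = j then y * ‖v j‖ ^ 2 else 0) ≤ 0 := by
      intro i
      have a := congrFun h0 i
      rw [Mq_mulVec] at a
      have hn : ∀ c : ℝ, (star (v i) * -((c : ℂ) * v i)).re = -(c * ‖v i‖ ^ 2) := by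
        intro c; rw [← Complex.normSq_eq_norm_sq, Complex.normSq_apply]; simp; ring
      by_cases hi : i = j
      · subst hi
        simp only [Function.update_self, one_mul, Pi.zero_apply] at a
        have e : (N *ᵥ v) i = -(((w i + y : ℝ) : ℂ) * v i) := by
          push_cast; linear_combination a
        rw [e, hn]
        have := mul_le_mul_of_nonneg_right (hw i hj) (sq_nonneg ‖v i‖)
        simp only [if_true]; linarith
      · simp only [Function.update_of_ne hi, hq, Pi.zero_apply] at a
        by_cases hP : P i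
        · simp only [hP, if_true, one_mul] at a
          have e : (N *ᵥ v) i = -((w i : ℂ) * v i) := by linear_combination a
          rw [e, hn]
          have := mul_le_mul_of_nonneg_right (hw i hP) (sq_nonneg ‖v i‖)
          simp only [hi, if_false]; linarith
        · simp only [hP, if_false, zero_mul, one_mul, zero_add] at a
          simp [a, hi]
    have hsum := Finset.sum_le_sum (s := Finset.univ) fun i _ => hterm i
    simp only [Finset.sum_add_distrib, Finset.sum_ite_eq', Finset.mem_univ, if_true,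
      Finset.sum_const_zero, ← Finset.mul_sum] at hsum
    have hre : (star v ⬝ᵥ (N *ᵥ v)).re = ∑ i, (star (v i) * (N *ᵥ v) i).re := by
      rw [dotProduct, Complex.re_sum]; rfl
    have hS : 0 < ∑ i, ‖v i‖ ^ 2 := by
      obtain ⟨i0, hi0⟩ := Function.ne_iff.1 hv
      exact Finset.sum_pos' (fun i _ => sq_nonneg _)
        ⟨i0, Finset.mem_univ _, pow_pos (norm_pos_iff.2 hi0) 2⟩
    have h3 := hb v j
    have h4 := mul_le_mul_of_nonneg_right hy1 (sq_nonneg ‖v j‖)
    have h5 := mul_lt_mul_of_pos_right hbb hS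
    rw [hre] at h3
    linarith
  · intro y
    have e : Function.update (fun i => if P i then (E (w i) : St r) else Del) j (E ((w j : ℂ) + y))
        = fun i => pr (fun _ => Function.update q j (1, (w j : ℂ) + y) i) := by
      funext i
      by_cases hi : i = j
      · subst hi; simp [E]
      · simp only [Function.update_of_ne hi, hq]; split_ifs <;> rfl
    rw [e, Lam_pr]
    simp only [Finset.prod_const, Finset.card_univ, Fintype.card_fin]
    rw [det_affine, hm0, hm1]; push_cast; rfl

end Pool.Agent.H677Z.Pav
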