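import Mathlib

/-!
The multilinear form behind products of `r` determinants, its stability and positivity.
-/

namespace Pool.Agent.H677Z.Pav

open Matrix Filter Topology
open scoped ComplexOrder

variable {ι : Type} [Fintype ι] [DecidableEq ι] {r : ℕ}

abbrev St (r : ℕ) := (Fin r → Bool) → ℂ

noncomputable def dN (N : Matrix ι ι ℂ) (χ : ι → Bool) : ℂ :=
  Matrix.det (Matrix.of fun i j => if χ i then N i j else if i = j then 1 else 0)

noncomputable def Lam (N : Matrix ι ι ℂ) : MultilinearMap ℂ (fun _ : ι => St r) ℂ :=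
  ∑ τ : ι → Fin r → Bool, (∏ k, dN N (fun i => τ i k)) •
    (MultilinearMap.mkPiAlgebra ℂ ι ℂ).compLinearMap (fun i => LinearMap.proj (τ i))

lemma Lam_apply (N : Matrix ι ι ℂ) (σ : ι → St r) :
    Lam N σ = ∑ τ : ι → Fin r → Bool, (∏ k, dN N (fun i => τ i k)) * ∏ i, σ i (τ i) := by
  simp [Lam]

noncomputable def pr (q : Fin r → ℂ × ℂ) : St r := fun β => ∏ k, if β k then (q k).1 else (q k).2

noncomputable def Mq (N : Matrix ι ι ℂ) (q : ι → ℂ × ℂ) : Matrix ι ι ℂ :=
  Matrix.of fun i j => (q i).1 * N i j + (if i = j then (q i).2 else 0)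

lemma det_Mq (N : Matrix ι ι ℂ) (q : ι → ℂ × ℂ) :
    (Mq N q).det = ∑ χ : ι → Bool, dN N χ * ∏ i, if χ i then (q i).1 else (q i).2 := by
  let g : ι → Bool → ι → ℂ := fun i b => (if b then (q i).1 else (q i).2) •
    (fun j => if b then N i j else if i = j then 1 else 0)
  have h1 : Mq N q = fun i => ∑ b : Bool, g i b := by
    funext i j
    simp [Mq, g]
  have h2 : (Mq N q).det = (detRowAlternating : (ι → ℂ) [⋀^ι]→ₗ[ℂ] ℂ).toMultilinearMap
      (fun i => ∑ b : Bool, g i b) := by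
    rw [← h1]; rfl
  rw [h2, MultilinearMap.map_sum]
  apply Finset.sum_congr rfl
  intro χ _
  simp only [g]
  rw [MultilinearMap.map_smul_univ, smul_eq_mul, mul_comm]
  rfl

lemma Lam_pr (N : Matrix ι ι ℂ) (q : ι → Fin r → ℂ × ℂ) :
    Lam N (fun i => pr (q i)) = ∏ k, (Mq N (fun i => q i k)).det := by
  simp only [det_Mq]
  rw [Finset.prod_univ_sum, Fintype.piFinset_univ, Lam_apply]
  apply Fintype.sum_equiv (Equiv.piComm (fun (_ : ι) (_ : Fin r) => Bool))
  intro τ
  rw [Finset.prod_mul_distrib]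
  congr 1
  simp only [pr]
  rw [Finset.prod_comm]
  rfl

lemma dN_nonneg {N : Matrix ι ι ℂ} (hN : N.PosSemidef) (χ : ι → Bool) : 0 ≤ dN N χ := by
  let D : Matrix ι ι ℂ := diagonal (fun i => if χ i then 1 else 0)
  let D0 : Matrix ι ι ℂ := diagonal (fun i => if χ i then 0 else 1)
  have hDD : D * D = D := by
    simp only [D, diagonal_mul_diagonal]; congr 1; funext i; split_ifs <;> simp
  have e1 : (Matrix.of fun i j => if χ i then N i j else if i = j then 1 else 0)
      = 1 + D * (D * (N - 1)) := by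
    rw [← Matrix.mul_assoc, hDD]
    ext i j
    simp only [D, Matrix.add_apply, diagonal_mul, Matrix.sub_apply, one_apply, of_apply]
    split_ifs <;> simp
  have e2 : 1 + D * (N - 1) * D = D0 + Dᴴ * N * D := by
    have : Dᴴ = D := by
      simp only [D, diagonal_conjTranspose]; congr 1; funext i; by_cases h : χ i <;> simp [h]
    rw [this, Matrix.mul_sub, Matrix.sub_mul, Matrix.mul_one, hDD]
    have : (1 : Matrix ι ι ℂ) = D0 + D := by
      simp only [D, D0, diagonal_add, ← diagonal_one]; congr 1; funext i; split_ifs <;> simp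
    rw [this]; abel
  rw [dN, e1, det_one_add_mul_comm, e2]
  apply PosSemidef.det_nonneg
  apply PosSemidef.add
  · apply PosSemidef.diagonal; intro i; simp only [Pi.zero_apply]; split_ifs <;> simp
  · exact hN.conjTranspose_mul_mul_same D

lemma dN_false (N : Matrix ι ι ℂ) : dN N (fun _ => false) = 1 := by
  have : (Matrix.of fun i j : ι => if false = true then N i j else if i = j then (1 : ℂ) else 0) = 1 := by
    ext i j; simp [one_apply]
  rw [dN, this, det_one]

def NN (ρ : St r) : Prop := (∀ β, 0 ≤ ρ β) ∧ 0 < ρ (fun _ => false)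

lemma Lam_pos {N : Matrix ι ι ℂ} (hN : N.PosSemidef) (σ : ι → St r) (h : ∀ i, NN (σ i)) :
    0 < Lam N σ := by
  rw [Lam_apply]
  apply Finset.sum_pos'
  · intro τ _
    exact mul_nonneg (Finset.prod_nonneg fun k _ => dN_nonneg hN _)
      (Finset.prod_nonneg fun i _ => (h i).1 _)
  · refine ⟨fun _ _ => false, Finset.mem_univ _, ?_⟩
    simp only [dN_false, Finset.prod_const_one, one_mul]
    exact Finset.prod_pos fun i _ => (h i).2

def IsR (ρ : St r) : Prop := ∀ β, (ρ β).im = 0

lemma Lam_im {N : Matrix ι ι ℂ} (hN : N.PosSemidef) (σ : ι → St r) (h : ∀ i, IsR (σ i)) :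
    (Lam N σ).im = 0 := by
  rw [← Complex.conj_eq_iff_im, Lam_apply, map_sum]
  apply Finset.sum_congr rfl
  intro τ _
  rw [map_mul, map_prod, map_prod]
  congr 1
  · apply Finset.prod_congr rfl; intro k _
    rw [Complex.conj_eq_iff_im]; exact ((Complex.le_def.1 (dN_nonneg hN _)).2).symm
  · apply Finset.prod_congr rfl; intro i _
    rw [Complex.conj_eq_iff_im]; exact h i _

lemma Lam_re {N : Matrix ι ι ℂ} (hN : N.PosSemidef) (σ : ι → St r) (h : ∀ i, IsR (σ i)) :
    (((Lam N σ).re : ℝ) : ℂ) = Lam N σ := by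
  apply Complex.ext <;> simp [Lam_im hN σ h]

lemma Mq_mulVec (N : Matrix ι ι ℂ) (q : ι → ℂ × ℂ) (v : ι → ℂ) (i : ι) :
    (Mq N q *ᵥ v) i = (q i).1 * (N *ᵥ v) i + (q i).2 * v i := by
  simp [Mq, mulVec, dotProduct, add_mul, Finset.sum_add_distrib, Finset.mul_sum, mul_assoc]

def Adm (q : ℂ × ℂ) : Prop := (q.1 = 1 ∧ 0 < q.2.im) ∨ (q.1 = 0 ∧ q.2 = 1)

lemma det_Mq_ne {N : Matrix ι ι ℂ} (hN : N.PosSemidef) (q : ι → ℂ × ℂ) (hq : ∀ i, Adm (q i)) :
    (Mq N q).det ≠ 0 := by
  intro h
  obtain ⟨v, hv, h0⟩ := exists_mulVec_eq_zero_iff.2 h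
  have hi : ∀ i, (q i).1 * (N *ᵥ v) i + (q i).2 * v i = 0 := by
    intro i; rw [← Mq_mulVec, h0]; rfl
  have him : (star v ⬝ᵥ (N *ᵥ v)).im = 0 :=
    ((Complex.le_def.1 (hN.dotProduct_mulVec_nonneg v)).2).symm
  have hterm : ∀ i, (star (v i) * (N *ᵥ v) i).im ≤ 0 ∧
      (v i ≠ 0 → (star (v i) * (N *ᵥ v) i).im < 0) := by
    intro i
    rcases hq i with ⟨h1, h2⟩ | ⟨h1, h2⟩
    · have e : (N *ᵥ v) i = -((q i).2 * v i) := by
        have := hi i; rw [h1] at this; linear_combination this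
      have e2 : (star (v i) * (N *ᵥ v) i).im = -((q i).2.im * Complex.normSq (v i)) := by
        rw [e, Complex.normSq_apply]; simp; ring
      rw [e2]
      refine ⟨neg_nonpos.2 (mul_nonneg h2.le (Complex.normSq_nonneg _)), fun hne => ?_⟩
      exact neg_neg_of_pos (mul_pos h2 (Complex.normSq_pos.2 hne))
    · have e : v i = 0 := by have := hi i; rw [h1, h2] at this; simpa using this
      simp [e]
  obtain ⟨i0, hi0⟩ := Function.ne_iff.1 hv
  have : (star v ⬝ᵥ (N *ᵥ v)).im < 0 := by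
    rw [dotProduct, Complex.im_sum]
    have := Finset.sum_lt_sum (s := Finset.univ) (f := fun i => (star v i * (N *ᵥ v) i).im)
      (g := fun _ => 0) (fun i _ => (hterm i).1) ⟨i0, Finset.mem_univ _, (hterm i0).2 hi0⟩
    simpa using this
  linarith

def Good (ρ : St r) : Prop :=
  ∀ φ : St r →ₗ[ℂ] ℂ, (∀ q : Fin r → ℂ × ℂ, (∀ k, Adm (q k)) → φ (pr q) ≠ 0) → φ ρ ≠ 0

lemma Good_pr (q : Fin r → ℂ × ℂ) (hq : ∀ k, Adm (q k)) : Good (pr q) := fun _ h => h q hq

theorem Lam_ne {N : Matrix ι ι ℂ} (hN : N.PosSemidef) (σ : ι → St r) (h : ∀ i, Good (σ i)) :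
    Lam N σ ≠ 0 := by
  have key : ∀ S : Finset ι, ∀ q : ι → Fin r → ℂ × ℂ, (∀ i k, Adm (q i k)) →
      Lam N (S.piecewise σ (fun i => pr (q i))) ≠ 0 := by
    intro S
    induction S using Finset.induction_on with
    | empty =>
      intro q hq
      rw [Finset.piecewise_empty, Lam_pr]
      exact Finset.prod_ne_zero_iff.2 fun k _ => det_Mq_ne hN _ fun i => hq i k
    | insert i S hi ih =>
      intro q hq
      rw [Finset.piecewise_insert]
      apply h i ((Lam N).toLinearMap (S.piecewise σ (fun i => pr (q i))) i)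
      intro q' hq'
      have := ih (Function.update q i q') (by
        intro j k
        by_cases hj : j = i
        · subst hj; simpa using hq' k
        · simpa [hj] using hq j k)
      convert this using 1
      simp only [MultilinearMap.toLinearMap_apply]
      rw [Finset.update_piecewise_of_notMem _ _ _ hi]
      congr 2
      funext j
      by_cases hj : j = i
      · subst hj; simp
      · simp [hj]
  have := key Finset.univ (fun _ _ => (0, 1)) (fun _ _ => Or.inr ⟨rfl, rfl⟩)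
  rwa [Finset.piecewise_univ] at this

lemma Lam_cont {X : Type} [TopologicalSpace X] (N : Matrix ι ι ℂ) (σ : X → ι → St r)
    (h : ∀ i β, Continuous fun x => σ x i β) : Continuous fun x => Lam N (σ x) := by
  simp only [Lam_apply]
  fun_prop

lemma Lam_diff (N : Matrix ι ι ℂ) (σ : ℂ → ι → St r)
    (h : ∀ i β, Differentiable ℂ fun x => σ x i β) : Differentiable ℂ fun x => Lam N (σ x) := by
  simp only [Lam_apply]
  fun_prop

noncomputable def E (w : ℂ) : St r := pr (fun _ => (1, w))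
noncomputable def Del : St r := pr (fun _ => (0, 1))
noncomputable def Asg (k : Fin r) (w : ℂ) : St r := pr (fun l => if l = k then (1, w) else (0, 1))
noncomputable def L (w : ℂ) : St r := ∑ k, Asg k w

lemma Asg_apply (k : Fin r) (w : ℂ) (β : Fin r → Bool) :
    Asg k w β = (if β k then 1 else w) * ∏ l ∈ Finset.univ.erase k, if β l then 0 else 1 := by
  simp only [Asg, pr]
  rw [← Finset.mul_prod_erase _ _ (Finset.mem_univ k)]
  congr 1
  · simp
  · apply Finset.prod_congr rfl; intro l hl; simp [Finset.ne_of_mem_erase hl]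

lemma Asg_add (k : Fin r) (w x : ℂ) : Asg k (w + x) = Asg k w + x • Del := by
  funext β
  simp only [Pi.add_apply, Pi.smul_apply, Asg_apply, smul_eq_mul, Del, pr]
  rw [← Finset.mul_prod_erase _ _ (Finset.mem_univ k)]
  split_ifs <;> ring

lemma Asg_diff (k : Fin r) (β : Fin r → Bool) : Differentiable ℂ fun x => Asg k x β := by
  simp only [Asg_apply]; split_ifs <;> fun_prop

lemma L_diff (β : Fin r → Bool) : Differentiable ℂ fun x => (L x : St r) β := by
  simp only [L, Finset.sum_apply]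
  have := fun k : Fin r => Asg_diff k β
  fun_prop

lemma pr_NN (q : Fin r → ℂ × ℂ) (h1 : ∀ k, 0 ≤ (q k).1) (h2 : ∀ k, 0 < (q k).2) : NN (pr q) := by
  constructor
  · intro β; apply Finset.prod_nonneg; intro k _; split_ifs; exacts [h1 k, (h2 k).le]
  · simp only [pr]; apply Finset.prod_pos; intro k _; simpa using h2 k

lemma pr_IsR (q : Fin r → ℂ × ℂ) (h1 : ∀ k, (q k).1.im = 0) (h2 : ∀ k, (q k).2.im = 0) :
    IsR (pr q) := by
  intro β
  rw [← Complex.conj_eq_iff_im, pr, map_prod]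
  apply Finset.prod_congr rfl; intro k _
  rw [Complex.conj_eq_iff_im]; split_ifs; exacts [h1 k, h2 k]

lemma Del_NN : NN (Del : St r) := pr_NN _ (by simp) (by simp)
lemma E_NN (x : ℝ) (hx : 0 < x) : NN (E x : St r) := pr_NN _ (by simp) (fun _ => by simpa using hx)
lemma Asg_NN (k : Fin r) (x : ℝ) (hx : 0 < x) : NN (Asg k x) :=
  pr_NN _ (by intro l; split_ifs <;> simp) (by intro l; split_ifs <;> simp [hx])
lemma L_NN [NeZero r] (x : ℝ) (hx : 0 < x) : NN (L x : St r) := by
  constructor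
  · intro β; simp only [L, Finset.sum_apply]
    exact Finset.sum_nonneg fun k _ => (Asg_NN k x hx).1 β
  · simp only [L, Finset.sum_apply]
    exact Finset.sum_pos (fun k _ => (Asg_NN k x hx).2) Finset.univ_nonempty

lemma Del_IsR : IsR (Del : St r) := pr_IsR _ (by simp) (by simp)
lemma E_IsR (x : ℝ) : IsR (E x : St r) := pr_IsR _ (by simp) (by simp)
lemma Asg_IsR (k : Fin r) (x : ℝ) : IsR (Asg k x) :=
  pr_IsR _ (by intro l; split_ifs <;> simp) (by intro l; split_ifs <;> simp)
lemma L_IsR (x : ℝ) : IsR (L x : St r) := by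
  intro β; simp only [L, Finset.sum_apply, Complex.im_sum]
  exact Finset.sum_eq_zero fun k _ => Asg_IsR k x β

lemma Del_Good : Good (Del : St r) := Good_pr _ fun _ => Or.inr ⟨rfl, rfl⟩
lemma E_Good (w : ℂ) (hw : 0 < w.im) : Good (E w : St r) := Good_pr _ fun _ => Or.inl ⟨rfl, hw⟩
lemma Asg_Good (k : Fin r) (w : ℂ) (hw : 0 < w.im) : Good (Asg k w) :=
  Good_pr _ fun l => by
    split_ifs
    · exact Or.inl ⟨rfl, hw⟩
    · exact Or.inr ⟨rfl, rfl⟩

end Pool.Agent.H677Z.Pav
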