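import Pool.Agent.H677Z.Pav.Core3
import Pool.Agent.H677Z.Pav.Alg3

/-!
The barrier step for three parts.
-/

namespace Pool.Agent.H677Z.Pav

open Filter Topology

/-- The second-order barrier functional. -/
noncomputable def fK (a0 a1 a2 : ℝ) : ℝ := 109 / 100 * a0 - 53 / 50 * a1 + 2 / 3 * a2

def K3 (a0 a1 a2 : ℝ) : Prop := a1 < 3 / 2 * a0 ∧ 0 < fK a0 a1 a2

lemma roots_K {κ t1 t2 t3 a0 a1 a2 : ℝ} (hk : 0 < κ) (e2 : a2 = κ * (t1 + t2 + t3))
    (e1 : a1 = κ * (t1 * t2 + t1 * t3 + t2 * t3)) (e0 : a0 = κ * (t1 * t2 * t3))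
    (h1 : a1 ≤ 3 / 2 * a0) (h2 : 0 ≤ fK a0 a1 a2) :
    t1 * t2 + t1 * t3 + t2 * t3 ≤ 3 / 2 * (t1 * t2 * t3) ∧
    0 ≤ 109 / 100 * (t1 * t2 * t3) - 53 / 50 * (t1 * t2 + t1 * t3 + t2 * t3)
      + 2 / 3 * (t1 + t2 + t3) := by
  subst e2 e1 e0
  constructor
  · apply le_of_mul_le_mul_left _ hk; linarith
  · apply nonneg_of_mul_nonneg_right _ hk |> fun h => h
    unfold fK at h2; linarith

theorem step_distinct {c : ℕ → ℕ → ℝ} (hc : Good2 c) (t1 t2 t3 : ℝ) (h0 : 0 < t1) (h12 : t1 < t2)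
    (h23 : t2 < t3) (e2 : c 2 0 = c 3 0 * (t1 + t2 + t3))
    (e1 : c 1 0 = c 3 0 * (t1 * t2 + t1 * t3 + t2 * t3)) (e0 : c 0 0 = c 3 0 * (t1 * t2 * t3))
    (hx1 : c 1 0 ≤ 3 / 2 * c 0 0) (hx2 : 0 ≤ fK (c 0 0) (c 1 0) (c 2 0))
    (hy : c 0 1 ≤ 3 / 2 * c 0 0) :
    (c 2 1 - 303 / 100 * c 3 1) * c 0 0 ≤ c 0 1 * (c 2 0 - 303 / 100 * c 3 0) ∧
    fK (c 0 0) (c 0 1) (c 0 2) * (c 2 0 - 303 / 100 * c 3 0) ≤
      fK (c 2 0 - 303 / 100 * c 3 0) (c 2 1 - 303 / 100 * c 3 1) (c 2 2 - 303 / 100 * c 3 2)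
        * c 0 0 := by
  have hk : 0 < c 3 0 := by simpa [cR] using hc.lpos 0 le_rfl
  obtain ⟨hA, hB⟩ := roots_K hk e2 e1 e0 hx1 hx2
  obtain ⟨hn, hA2⟩ := algK t1 t2 t3 h0 h12.le h23.le hA hB
  obtain ⟨d1, d2, d3, z1, z2, z3, hd1, hd2, hd3, hz1, hz2, hz3, f21, f01, f22, f02⟩ :=
    jets hc t1 t2 t3 h0 h12 h23 e2 e1 e0
  have h31 : 0 ≤ c 3 1 := by
    obtain ⟨s1, s2, s3, p1, p2, p3, -, q1, -⟩ := real_cubic (c 3 0) (c 3 1) (c 3 2) (c 3 3) hc.top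
      (fun y hy => hc.lead y (Or.inl hy)) (fun y hy => hc.lpos y hy)
    have := hc.top
    have a2 : 0 < s2 := by linarith
    have a3 : 0 < s3 := by linarith
    rw [q1]; positivity
  have p2 : 0 < t2 := by linarith
  have p3 : 0 < t3 := by linarith
  obtain ⟨κ, hκ⟩ : ∃ κ, c 3 0 = κ := ⟨_, rfl⟩
  rw [hκ] at hk e2 e1 e0 f21 f01 f22 f02
  obtain ⟨T, hT⟩ : ∃ T, c 3 1 = κ * T := ⟨c 3 1 / κ, by field_simp⟩
  obtain ⟨T2, hT2⟩ : ∃ T2, c 3 2 = κ * T2 := ⟨c 3 2 / κ, by field_simp⟩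
  obtain ⟨x1, rfl⟩ : ∃ x, d1 = t1 * x := ⟨d1 / t1, by field_simp⟩
  obtain ⟨x2, rfl⟩ : ∃ x, d2 = t2 * x := ⟨d2 / t2, by field_simp⟩
  obtain ⟨x3, rfl⟩ : ∃ x, d3 = t3 * x := ⟨d3 / t3, by field_simp⟩
  have hx1' : 0 ≤ x1 := nonneg_of_mul_nonneg_right hd1 h0 |> fun h => h
  have hx2' : 0 ≤ x2 := nonneg_of_mul_nonneg_right hd2 p2 |> fun h => h
  have hx3' : 0 ≤ x3 := nonneg_of_mul_nonneg_right hd3 p3 |> fun h => h
  have hT0 : 0 ≤ T := by rw [hT] at h31; exact nonneg_of_mul_nonneg_right h31 hk |> fun h => h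
  have hP : 0 < κ * (t1 * t2 * t3) := by positivity
  have hs : T + (x1 + x2 + x3) ≤ 3 / 2 := by
    apply le_of_mul_le_mul_left _ hP
    rw [f01, e0, hT] at hy
    nlinarith [hy]
  have hB2 := algB t1 t2 t3 x1 x2 x3 T h12.le h23.le hx1' hx2' hx3' hT0 hs hn hA2
  set N := (t2 + t3 - 303 / 100) * x1 + (t1 + t3 - 303 / 100) * x2
        + (t1 + t2 - 303 / 100) * x3 with hN
  have N0 : 0 ≤ N := by
    have a1 : 0 ≤ t2 + t3 - 303 / 100 := by linarith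
    have a2 : 0 ≤ t1 + t3 - 303 / 100 := by linarith
    positivity
  rw [hκ, f21, f01, f22, f02, e2, e0, hT, hT2]
  constructor
  · have : (κ * T * (t1 * t2 * t3) + κ * (t1 * x1 * (t2 * t3) + t2 * x2 * (t1 * t3)
        + t3 * x3 * (t1 * t2))) * (κ * (t1 + t2 + t3) - 303 / 100 * κ)
        - (κ * T * (t1 + t2 + t3) + κ * (t1 * x1 + t2 * x2 + t3 * x3) - 303 / 100 * (κ * T))
          * (κ * (t1 * t2 * t3)) = κ * (κ * (t1 * t2 * t3)) * N := by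
      simp only [hN]; ring
    have h2 : 0 ≤ κ * (κ * (t1 * t2 * t3)) * N := by positivity
    linarith
  · set w1 := t2 * t3 * (t2 + t3 - 303 / 100) with hw1
    set w2 := t1 * t3 * (t1 + t3 - 303 / 100) with hw2
    set w3 := t1 * t2 * (t1 + t2 - 303 / 100) with hw3
    have w30 : 0 ≤ w3 := by positivity
    have w23 : w3 ≤ w2 := by
      simp only [hw2, hw3]
      apply mul_le_mul _ (by linarith) hn (by positivity)
      exact mul_le_mul_of_nonneg_left h23.le h0.le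
    have w12 : w2 ≤ w1 := by
      simp only [hw2, hw1]
      apply mul_le_mul _ (by linarith) (by linarith) (by positivity)
      exact mul_le_mul_of_nonneg_right h12.le p3.le
    have hz : 0 ≤ -(z1 * w1 + z2 * w2 + z3 * w3) := by
      have b1 := mul_nonneg (neg_nonneg.2 hz1) (sub_nonneg.2 w12)
      have b2 := mul_nonneg (neg_nonneg.2 hz2) (sub_nonneg.2 w23)
      have b3 := mul_nonneg (neg_nonneg.2 hz3) w30
      linarith
    rw [← sub_nonneg]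
    have : fK (κ * (t1 + t2 + t3) - 303 / 100 * κ)
        (κ * T * (t1 + t2 + t3) + κ * (t1 * x1 + t2 * x2 + t3 * x3) - 303 / 100 * (κ * T))
        (κ * T2 * (t1 + t2 + t3) + κ * T * (t1 * x1 + t2 * x2 + t3 * x3) + κ * (z1 + z2 + z3)
          - 303 / 100 * (κ * T2)) * (κ * (t1 * t2 * t3)) -
        fK (κ * (t1 * t2 * t3))
          (κ * T * (t1 * t2 * t3) + κ * (t1 * x1 * (t2 * t3) + t2 * x2 * (t1 * t3)
            + t3 * x3 * (t1 * t2)))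
          (κ * T2 * (t1 * t2 * t3) + κ * T * (t1 * x1 * (t2 * t3) + t2 * x2 * (t1 * t3)
            + t3 * x3 * (t1 * t2)) + κ * (t1 * x1 * (t2 * x2) * t3 + t1 * x1 * (t3 * x3) * t2
            + t2 * x2 * (t3 * x3) * t1 + (z1 * (t2 * t3) + z2 * (t1 * t3) + z3 * (t1 * t2))))
          * (κ * (t1 + t2 + t3) - 303 / 100 * κ)
        = κ * (κ * (t1 * t2 * t3)) * ((53 / 50 - 2 / 3 * T) * N
            - 2 / 3 * ((t1 + t2 + t3 - 303 / 100) * (x1 * x2 + x1 * x3 + x2 * x3)))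
          + 2 / 3 * κ ^ 2 * (-(z1 * w1 + z2 * w2 + z3 * w3)) := by
      simp only [fK, hN, hw1, hw2, hw3]; ring
    rw [this]
    have := sub_nonneg.2 hB2
    positivity

/-- A small perturbation making the roots simple. -/
def pert (c : ℕ → ℕ → ℝ) (e : ℝ) : ℕ → ℕ → ℝ
  | 0, b => c 0 b + 3 * e * c 1 b + 7 * e ^ 2 * c 2 b + 9 * e ^ 3 * c 3 b
  | 1, b => c 1 b + 6 * e * c 2 b + 21 * e ^ 2 * c 3 b
  | 2, b => c 2 b + 9 * e * c 3 b
  | _, b => c 3 b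

lemma pert3 (c : ℕ → ℕ → ℝ) (e : ℝ) : pert c e 3 = c 3 := by funext b; rfl

lemma stab3 (u v w : ℂ) (hu : 0 < u.im) (hv : 0 < v.im) (hw : 0 < w.im) (l : ℝ) (hl : 0 < l) :
    u * v * w - l * (u + v + w) ≠ 0 := by
  intro h
  have h2 : ((u * v * w - l * (u + v + w)) * (starRingEnd ℂ (v * w - l))).im =
      u.im * ((v.re * w.re - v.im * w.im - l) ^ 2 + (v.re * w.im + v.im * w.re) ^ 2)
      + l * ((v.re ^ 2 + v.im ^ 2) * w.im + (w.re ^ 2 + w.im ^ 2) * v.im + l * (v.im + w.im)) := by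
    simp; ring
  rw [h] at h2
  have : 0 < u.im * ((v.re * w.re - v.im * w.im - l) ^ 2 + (v.re * w.im + v.im * w.re) ^ 2)
      + l * ((v.re ^ 2 + v.im ^ 2) * w.im + (w.re ^ 2 + w.im ^ 2) * v.im + l * (v.im + w.im)) := by
    positivity
  simp at h2
  linarith

lemma pert_good {c : ℕ → ℕ → ℝ} (hc : Good2 c) (e : ℝ) (he : 0 < e) : Good2 (pert c e) where
  stab x y hx hy := by
    obtain ⟨u, v, w, hu, hv, hw, h2, h1, h0⟩ := hc.factor y hy
    have : pC (pert c e) x y = cC (c 3) y * ((x + 3 * e + u) * (x + 3 * e + v) * (x + 3 * e + w)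
        - ((2 * e ^ 2 : ℝ) : ℂ) * ((x + 3 * e + u) + (x + 3 * e + v) + (x + 3 * e + w))) := by
      have a : pC (pert c e) x y = cC (c 0) y + 3 * e * cC (c 1) y + 7 * e ^ 2 * cC (c 2) y
          + 9 * e ^ 3 * cC (c 3) y + (cC (c 1) y + 6 * e * cC (c 2) y + 21 * e ^ 2 * cC (c 3) y) * x
          + (cC (c 2) y + 9 * e * cC (c 3) y) * x ^ 2 + cC (c 3) y * x ^ 3 := by
        simp only [pC, cC, pert]; push_cast; ring
      rw [a, h2, h1, h0]; push_cast; ring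
    rw [this]
    refine mul_ne_zero (hc.lead y hy) (stab3 _ _ _ ?_ ?_ ?_ _ (by positivity)) <;> simp <;> linarith
  lead y hy := by rw [pert3]; exact hc.lead y hy
  pos x y hx hy := by
    obtain ⟨u, v, w, hu, hv, hw, h2, h1, h0⟩ := hc.rfactor y hy
    have a : pR (pert c e) x y = pR c x y + (3 * e * cR (c 1) y + 7 * e ^ 2 * cR (c 2) y
          + 9 * e ^ 3 * cR (c 3) y + (6 * e * cR (c 2) y + 21 * e ^ 2 * cR (c 3) y) * x
          + (9 * e * cR (c 3) y) * x ^ 2) := by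
      simp only [pR, cR, pert]; ring
    have b3 := hc.lpos y hy
    have hv0 : 0 < v := by linarith
    have hw0 : 0 < w := by linarith
    have b2 : 0 < cR (c 2) y := by rw [h2]; positivity
    have b1 : 0 < cR (c 1) y := by rw [h1]; positivity
    have b0 := hc.pos x y hx hy
    rw [a]; positivity
  lpos y hy := by rw [pert3]; exact hc.lpos y hy
  top := hc.top

lemma pert_simple {κ t1 t2 t3 s s3 e : ℝ} (hk : 0 < κ) (he : 0 < e)
    (h2 : κ * (t1 + t2 + t3) + 9 * e * κ = κ * (s + s + s3))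
    (h1 : κ * (t1 * t2 + t1 * t3 + t2 * t3) + 6 * e * (κ * (t1 + t2 + t3)) + 21 * e ^ 2 * κ
      = κ * (s * s + s * s3 + s * s3))
    (h0 : κ * (t1 * t2 * t3) + 3 * e * (κ * (t1 * t2 + t1 * t3 + t2 * t3))
      + 7 * e ^ 2 * (κ * (t1 + t2 + t3)) + 9 * e ^ 3 * κ = κ * (s * s * s3)) : False := by
  have g2 : t1 + t2 + t3 + 9 * e = s + s + s3 := by
    apply mul_left_cancel₀ hk.ne'; linarith
  have g1 : t1 * t2 + t1 * t3 + t2 * t3 + 6 * e * (t1 + t2 + t3) + 21 * e ^ 2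
      = s * s + s * s3 + s * s3 := by
    apply mul_left_cancel₀ hk.ne'; linarith
  have g0 : t1 * t2 * t3 + 3 * e * (t1 * t2 + t1 * t3 + t2 * t3) + 7 * e ^ 2 * (t1 + t2 + t3)
      + 9 * e ^ 3 = s * s * s3 := by
    apply mul_left_cancel₀ hk.ne'; linarith
  obtain ⟨u, hu⟩ : ∃ u, u = t1 + 3 * e - s := ⟨_, rfl⟩
  obtain ⟨v, hv⟩ : ∃ v, v = t2 + 3 * e - s := ⟨_, rfl⟩
  obtain ⟨w, hw⟩ : ∃ w, w = t3 + 3 * e - s := ⟨_, rfl⟩
  have k2 : u * v + u * w + v * w = 6 * e ^ 2 := by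
    rw [hu, hv, hw]; linear_combination g1 - 2 * s * g2
  have k3 : u * v * w = 2 * e ^ 2 * (u + v + w) := by
    rw [hu, hv, hw]; linear_combination g0 - s * g1 + s ^ 2 * g2
  have n1 : 3 * (u * v + u * w + v * w) ≤ (u + v + w) ^ 2 := by
    nlinarith [sq_nonneg (u - v), sq_nonneg (u - w), sq_nonneg (v - w)]
  have n2 : 3 * (u + v + w) * (u * v * w) ≤ (u * v + u * w + v * w) ^ 2 := by
    nlinarith [sq_nonneg (u * v - u * w), sq_nonneg (u * v - v * w), sq_nonneg (u * w - v * w)]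
  rw [k2] at n1
  rw [k2, k3] at n2
  have e2 : 0 < e ^ 2 := by positivity
  nlinarith [mul_le_mul_of_nonneg_left n1 e2.le]

theorem step3 {c : ℕ → ℕ → ℝ} (hc : Good2 c) (hx : K3 (c 0 0) (c 1 0) (c 2 0))
    (hy : K3 (c 0 0) (c 0 1) (c 0 2)) (hpos : 0 < c 2 0 - 303 / 100 * c 3 0) :
    K3 (c 2 0 - 303 / 100 * c 3 0) (c 2 1 - 303 / 100 * c 3 1) (c 2 2 - 303 / 100 * c 3 2) := by
  have hk : 0 < c 3 0 := by simpa [cR] using hc.lpos 0 le_rfl
  have h00 : 0 < c 0 0 := by simpa [pR, cR] using hc.pos 0 0 le_rfl le_rfl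
  obtain ⟨t1, t2, t3, -, -, -, e2, e1, e0⟩ := hc.rfactor 0 le_rfl
  simp only [cR, mul_zero, add_zero, ne_eq, OfNat.ofNat_ne_zero, not_false_eq_true, zero_pow]
    at e2 e1 e0
  have cont : ∀ a b, Continuous (fun e => pert c e a b) := by
    intro a b
    match a with
    | 0 => simp only [pert]; fun_prop
    | 1 => simp only [pert]; fun_prop
    | 2 => simp only [pert]; fun_prop
    | (n + 3) => simp only [pert]; fun_prop
  have lim : ∀ a b, a ≤ 3 → Tendsto (fun e => pert c e a b) (𝓝[>] 0) (𝓝 (c a b)) := by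
    intro a b ha
    have h1 := ((cont a b).tendsto 0).mono_left (nhdsWithin_le_nhds (s := Set.Ioi 0))
    have : pert c 0 a b = c a b := by
      interval_cases a <;> simp [pert]
    rwa [this] at h1
  have l00 := lim 0 0 (by norm_num)
  have l10 := lim 1 0 (by norm_num)
  have l20 := lim 2 0 (by norm_num)
  have l30 := lim 3 0 (by norm_num)
  have l01 := lim 0 1 (by norm_num)
  have l02 := lim 0 2 (by norm_num)
  have l21 := lim 2 1 (by norm_num)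
  have l31 := lim 3 1 (by norm_num)
  have l22 := lim 2 2 (by norm_num)
  have l32 := lim 3 2 (by norm_num)
  have lf : ∀ {a0 a1 a2 : ℝ → ℝ} {b0 b1 b2 : ℝ}, Tendsto a0 (𝓝[>] 0) (𝓝 b0) →
      Tendsto a1 (𝓝[>] 0) (𝓝 b1) → Tendsto a2 (𝓝[>] 0) (𝓝 b2) →
      Tendsto (fun e => fK (a0 e) (a1 e) (a2 e)) (𝓝[>] 0) (𝓝 (fK b0 b1 b2)) := by
    intro a0 a1 a2 b0 b1 b2 h0 h1 h2
    exact ((h0.const_mul _).sub (h1.const_mul _)).add (h2.const_mul _)
  have ev1 := l10.eventually_lt (l00.const_mul (3 / 2)) hx.1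
  have ev2 := (tendsto_const_nhds (x := (0 : ℝ))).eventually_lt (lf l00 l10 l20) hx.2
  have ev3 := l01.eventually_lt (l00.const_mul (3 / 2)) hy.1
  have ev : ∀ᶠ e in 𝓝[>] (0 : ℝ),
      (pert c e 2 1 - 303 / 100 * pert c e 3 1) * pert c e 0 0 ≤
        pert c e 0 1 * (pert c e 2 0 - 303 / 100 * pert c e 3 0) ∧
      fK (pert c e 0 0) (pert c e 0 1) (pert c e 0 2) * (pert c e 2 0 - 303 / 100 * pert c e 3 0) ≤
        fK (pert c e 2 0 - 303 / 100 * pert c e 3 0) (pert c e 2 1 - 303 / 100 * pert c e 3 1)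
          (pert c e 2 2 - 303 / 100 * pert c e 3 2) * pert c e 0 0 := by
    filter_upwards [ev1, ev2, ev3, self_mem_nhdsWithin] with e h1 h2 h3 he
    have hg := pert_good hc e he
    obtain ⟨s1, s2, s3, p0, p1, p2, q2, q1, q0⟩ := hg.rfactor 0 le_rfl
    simp only [cR, mul_zero, add_zero, ne_eq, OfNat.ofNat_ne_zero, not_false_eq_true, zero_pow]
      at q2 q1 q0
    have r2 : c 3 0 * (t1 + t2 + t3) + 9 * e * c 3 0 = c 3 0 * (s1 + s2 + s3) := by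
      rw [← e2]; exact q2
    have r1 : c 3 0 * (t1 * t2 + t1 * t3 + t2 * t3) + 6 * e * (c 3 0 * (t1 + t2 + t3))
        + 21 * e ^ 2 * c 3 0 = c 3 0 * (s1 * s2 + s1 * s3 + s2 * s3) := by
      rw [← e2, ← e1]; exact q1
    have r0 : c 3 0 * (t1 * t2 * t3) + 3 * e * (c 3 0 * (t1 * t2 + t1 * t3 + t2 * t3))
        + 7 * e ^ 2 * (c 3 0 * (t1 + t2 + t3)) + 9 * e ^ 3 * c 3 0 = c 3 0 * (s1 * s2 * s3) := by
      rw [← e2, ← e1, ← e0]; exact q0
    have n1 : s1 < s2 := by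
      apply lt_of_le_of_ne p1
      rintro rfl
      exact pert_simple hk he r2 r1 r0
    have n2 : s2 < s3 := by
      apply lt_of_le_of_ne p2
      rintro rfl
      exact pert_simple (s := s2) (s3 := s1) hk he (by rw [r2]; ring) (by rw [r1]; ring)
        (by rw [r0]; ring)
    exact step_distinct hg s1 s2 s3 p0 n1 n2 q2 q1 q0 h1.le h2.le h3.le
  have m0 := l20.sub (l30.const_mul (303 / 100))
  have m1 := l21.sub (l31.const_mul (303 / 100))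
  have m2 := l22.sub (l32.const_mul (303 / 100))
  have A := le_of_tendsto_of_tendsto (m1.mul l00) (l01.mul m0) (ev.mono fun e h => h.1)
  have B := le_of_tendsto_of_tendsto ((lf l00 l01 l02).mul m0) ((lf m0 m1 m2).mul l00)
    (ev.mono fun e h => h.2)
  constructor
  · apply lt_of_mul_lt_mul_right _ h00.le
    have := mul_lt_mul_of_pos_right hy.1 hpos
    linarith
  · have := mul_pos hy.2 hpos
    exact (mul_pos_iff_of_pos_right h00).1 (lt_of_lt_of_le this B)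

lemma step_pos {a0 a1 a2 a3 : ℝ} (h3 : 0 < a3)
    (hS : ∀ x : ℂ, 0 < x.im → (a0 : ℂ) + a1 * x + a2 * x ^ 2 + a3 * x ^ 3 ≠ 0)
    (hP : ∀ x : ℝ, 0 ≤ x → 0 < a0 + a1 * x + a2 * x ^ 2 + a3 * x ^ 3) (hK : K3 a0 a1 a2) :
    0 < a2 - 303 / 100 * a3 := by
  obtain ⟨t1, t2, t3, p0, p1, p2, e2, e1, e0⟩ := real_cubic a0 a1 a2 a3 h3 hS hP
  obtain ⟨hA, hB⟩ := roots_K h3 e2 e1 e0 hK.1.le hK.2.le
  obtain ⟨hn, -⟩ := algK t1 t2 t3 p0 p1 p2 hA hB
  have : 0 < a3 * (t1 + t2 + t3 - 303 / 100) := mul_pos h3 (by linarith)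
  rw [e2]; linarith

end Pool.Agent.H677Z.Pav
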