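import Pool.Agent.H677Z.Pav.Init
import Pool.Agent.H677Z.Pav.Step3

/-!
The barrier induction for three parts.
-/

namespace Pool.Agent.H677Z.Pav

open Matrix Filter Topology
open scoped ComplexOrder

variable {ι : Type} [Fintype ι] [DecidableEq ι]

noncomputable def E1 (w : ℂ) : St 3 := ∑ k, pr (fun l => if l = k then (0, 1) else (1, w))

noncomputable def T3 : ℕ → ℂ → St 3
  | 0, w => E w
  | 1, w => E1 w
  | 2, w => L w
  | _, _ => Del

lemma E_add3 (w x : ℂ) :
    (E (w + x) : St 3) = T3 0 w + x • T3 1 w + x ^ 2 • T3 2 w + x ^ 3 • T3 3 w := by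
  funext β
  simp only [T3, E, E1, L, Del, Asg, pr, Fin.sum_univ_three, Fin.prod_univ_three, Pi.add_apply,
    Pi.smul_apply, smul_eq_mul]
  cases β 0 <;> cases β 1 <;> cases β 2 <;> simp <;> ring

lemma L_add3 (w x : ℂ) : (L (w + x) : St 3) = T3 2 w + (3 * x) • T3 3 w := by
  simp only [T3, L, Fin.sum_univ_three, Asg_add]
  funext β; simp; ring

lemma T3_IsR (a : ℕ) (x : ℝ) : IsR (T3 a x) := by
  match a with
  | 0 => exact E_IsR x
  | 1 =>
    intro β; simp only [T3, E1, Finset.sum_apply, Complex.im_sum]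
    exact Finset.sum_eq_zero fun k _ =>
      pr_IsR _ (by intro l; split_ifs <;> simp) (by intro l; split_ifs <;> simp) β
  | 2 => exact L_IsR x
  | (n + 3) => exact Del_IsR

lemma T3_cont (a : ℕ) (β : Fin 3 → Bool) : Continuous fun w => T3 a w β := by
  match a with
  | 0 =>
    simp only [T3, E, pr, Fin.prod_univ_three]
    cases β 0 <;> cases β 1 <;> cases β 2 <;> simp <;> fun_prop
  | 1 =>
    simp only [T3, E1, pr, Fin.prod_univ_three, Fin.sum_univ_three, Pi.add_apply]
    cases β 0 <;> cases β 1 <;> cases β 2 <;> simp <;> fun_prop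
  | 2 => exact (L_diff β).continuous
  | (n + 3) => exact continuous_const

lemma lin_E (φ : St 3 →ₗ[ℂ] ℂ) (w x : ℂ) : φ (E (w + x)) =
    φ (T3 0 w) + φ (T3 1 w) * x + φ (T3 2 w) * x ^ 2 + φ (T3 3 w) * x ^ 3 := by
  rw [E_add3]; simp only [map_add, map_smul, smul_eq_mul]; ring

lemma L_Good3 (w : ℂ) (hw : 0 < w.im) : Good (L w : St 3) := by
  intro φ hφ
  obtain ⟨u, v, s, hu, hv, hs, h2, -, -⟩ := cubic_factor_stable (φ (T3 0 0)) (φ (T3 1 0))
    (φ (T3 2 0)) (φ (T3 3 0)) (Del_Good φ hφ) (fun x hx => by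
      rw [← lin_E, zero_add]; exact E_Good x hx φ hφ)
  have : φ (L w) = φ (T3 3 0) * (u + v + s + 3 * w) := by
    have := L_add3 0 w
    rw [zero_add] at this
    rw [this, map_add, map_smul, smul_eq_mul, h2]; ring
  rw [this]
  refine mul_ne_zero (Del_Good φ hφ) (ne_zero_of_im_pos ?_)
  simp; linarith

lemma T3_Good (a : ℕ) (ha : a ≠ 1) (w : ℂ) (hw : 0 < w.im) : Good (T3 a w) := by
  match a with
  | 0 => exact E_Good w hw
  | 1 => exact absurd rfl ha
  | 2 => exact L_Good3 w hw
  | (n + 3) => exact Del_Good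

lemma cubic_lb (a0 a1 a2 a3 : ℂ) (h : a3 ≠ 0)
    (hS : ∀ x : ℂ, 0 < x.im → a0 + a1 * x + a2 * x ^ 2 + a3 * x ^ 3 ≠ 0) (x : ℂ) (hx : 0 < x.im) :
    ‖a3‖ * x.im ^ 3 ≤ ‖a0 + a1 * x + a2 * x ^ 2 + a3 * x ^ 3‖ := by
  obtain ⟨u, v, w, hu, hv, hw, h2, h1, h0⟩ := cubic_factor_stable a0 a1 a2 a3 h hS
  have e2 : a0 + a1 * x + a2 * x ^ 2 + a3 * x ^ 3 = a3 * ((x + u) * (x + v) * (x + w)) := by
    rw [h2, h1, h0]; ring
  have b : ∀ s : ℂ, 0 ≤ s.im → x.im ≤ ‖x + s‖ := fun s hs =>
    calc x.im ≤ (x + s).im := by simp [hs]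
      _ ≤ ‖x + s‖ := le_trans (le_abs_self _) (Complex.abs_im_le_norm _)
  rw [e2, norm_mul, norm_mul, norm_mul]
  apply mul_le_mul_of_nonneg_left _ (norm_nonneg _)
  have : x.im ^ 3 = x.im * x.im * x.im := by ring
  rw [this]
  have := b u hu
  have := b v hv
  have := b w hw
  gcongr

noncomputable def sg (κ : ι → ℕ) (z : ι → ℂ) : ι → St 3 := fun l => T3 (κ l) (z l)

omit [Fintype ι] in
lemma sg_update (κ : ι → ℕ) (z : ι → ℂ) (i : ι) (a : ℕ) (w : ℂ) :
    sg (Function.update κ i a) (Function.update z i w) = Function.update (sg κ z) i (T3 a w) := by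
  funext l
  by_cases h : l = i
  · subst h; simp [sg]
  · simp [sg, h]

lemma LB {N : Matrix ι ι ℂ} (hN : N.PosSemidef) (κ : ι → ℕ) (hκ : ∀ l, κ l ≠ 1) (z : ι → ℂ)
    (hz : ∀ l, 0 ≤ (z l).im) (i : ι) (x : ℂ) (hx : 0 < x.im) :
    ‖Lam N (Function.update (sg κ z) i Del)‖ * x.im ^ 3 ≤
      ‖Lam N (Function.update (sg κ z) i (E x))‖ := by
  have hc : ∀ ρ : St 3, Continuous fun e : ℝ =>
      ‖Lam N (Function.update (sg κ (fun l => z l + Complex.I * e)) i ρ)‖ := by
    intro ρ
    apply Continuous.norm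
    apply Lam_cont
    intro l β
    by_cases h : l = i
    · subst h; simp; exact continuous_const
    · simp only [Function.update_of_ne h, sg]
      exact (T3_cont _ β).comp (by fun_prop)
  have hl : ∀ ρ : St 3, Tendsto (fun e : ℝ =>
      ‖Lam N (Function.update (sg κ (fun l => z l + Complex.I * e)) i ρ)‖) (𝓝[>] 0)
      (𝓝 ‖Lam N (Function.update (sg κ z) i ρ)‖) := by
    intro ρ
    have := ((hc ρ).tendsto 0).mono_left (nhdsWithin_le_nhds (s := Set.Ioi 0))
    simpa using this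
  apply le_of_tendsto_of_tendsto ((hl Del).mul_const _) (hl (E x))
  filter_upwards [self_mem_nhdsWithin] with e he
  have he' : (0 : ℝ) < e := he
  set φ := (Lam N).toLinearMap (sg κ (fun l => z l + Complex.I * e)) i with hφ
  have hg : ∀ ρ : St 3, Good ρ → φ ρ ≠ 0 := by
    intro ρ hρ
    apply Lam_ne hN
    intro l
    by_cases h : l = i
    · subst h; simpa using hρ
    · simp only [Function.update_of_ne h, sg]
      apply T3_Good _ (hκ l)
      have := hz l
      simp; linarith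
  have := cubic_lb (φ (T3 0 0)) (φ (T3 1 0)) (φ (T3 2 0)) (φ (T3 3 0)) (hg _ Del_Good)
    (fun x hx => by rw [← lin_E, zero_add]; exact hg _ (E_Good x hx)) x hx
  rw [← lin_E, zero_add] at this
  exact this

def Ad (S : Finset ι) (κ : ι → ℕ) (w : ι → ℝ) : Prop :=
  ∀ l, (l ∉ S ∧ κ l = 0 ∧ 503 / 500 ≤ w l) ∨ (l ∈ S ∧ κ l = 2 ∧ -(1 / 250) ≤ w l) ∨ κ l = 3

noncomputable def cf (N : Matrix ι ι ℂ) (κ : ι → ℕ) (w : ι → ℝ) (j : ι) (a : ℕ) : ℝ :=
  (Lam N (Function.update (sg κ (fun l => w l)) j (T3 a (w j)))).re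

def Inv (N : Matrix ι ι ℂ) (S : Finset ι) : Prop :=
  ∀ κ w, Ad S κ w → 0 < (Lam N (sg κ (fun l => w l))).re ∧
    ∀ j, κ j = 0 → K3 (cf N κ w j 0) (cf N κ w j 1) (cf N κ w j 2)

omit [Fintype ι] in
lemma Ad.upd {S : Finset ι} {κ : ι → ℕ} {w : ι → ℝ} (h : Ad S κ w) (j : ι) (a : ℕ) (x : ℝ)
    (hj : (j ∉ S ∧ a = 0 ∧ 503 / 500 ≤ x) ∨ (j ∈ S ∧ a = 2 ∧ -(1 / 250) ≤ x) ∨ a = 3) :
    Ad S (Function.update κ j a) (Function.update w j x) := by
  intro l
  by_cases hl : l = j
  · subst hl; simpa using hj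
  · simpa [hl] using h l

omit [Fintype ι] [DecidableEq ι] in
lemma Ad.ne_one {S : Finset ι} {κ : ι → ℕ} {w : ι → ℝ} (h : Ad S κ w) (l : ι) : κ l ≠ 1 := by
  rcases h l with h | h | h <;> omega

omit [Fintype ι] in
lemma upd_cast (w : ι → ℝ) (j : ι) (x : ℝ) :
    (fun l => ((Function.update w j x l : ℝ) : ℂ)) = Function.update (fun l => (w l : ℂ)) j x := by
  funext l
  by_cases hl : l = j
  · subst hl; simp
  · simp [hl]

lemma cf_eq {N : Matrix ι ι ℂ} (hN : N.PosSemidef) (κ : ι → ℕ) (w : ι → ℝ) (j : ι) (a : ℕ) :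
    (cf N κ w j a : ℂ) = Lam N (Function.update (sg κ (fun l => w l)) j (T3 a (w j))) := by
  apply Lam_re hN
  intro l
  by_cases hl : l = j
  · subst hl; simpa using T3_IsR _ _
  · simpa [hl, sg] using T3_IsR _ _

lemma cf_E {N : Matrix ι ι ℂ} (hN : N.PosSemidef) (κ : ι → ℕ) (w : ι → ℝ) (j : ι) (y : ℂ) :
    Lam N (Function.update (sg κ (fun l => w l)) j (E (w j + y))) = cC (cf N κ w j) y := by
  have := lin_E ((Lam N).toLinearMap (sg κ (fun l => w l)) j) (w j) y
  simp only [MultilinearMap.toLinearMap_apply] at this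
  rw [this, cC, cf_eq hN, cf_eq hN, cf_eq hN, cf_eq hN]

lemma inv_pos {N : Matrix ι ι ℂ} {S : Finset ι} (hI : Inv N S) {κ : ι → ℕ} {w : ι → ℝ}
    (h : Ad S κ w) (j : ι) (a : ℕ) (x : ℝ)
    (hj : (j ∉ S ∧ a = 0 ∧ 503 / 500 ≤ x) ∨ (j ∈ S ∧ a = 2 ∧ -(1 / 250) ≤ x) ∨ a = 3) :
    0 < (Lam N (Function.update (sg κ (fun l => w l)) j (T3 a x))).re := by
  have := (hI _ _ (h.upd j a x hj)).1
  rwa [upd_cast, sg_update] at this

lemma inv_empty {N : Matrix ι ι ℂ} (hN : N.PosSemidef)
    (hb : ∀ (v : ι → ℂ) (j : ι),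
      2 * ‖v j‖ ^ 2 ≤ 201 / 200 * ∑ i, ‖v i‖ ^ 2 + (star v ⬝ᵥ (N *ᵥ v)).re) : Inv N ∅ := by
  intro κ w h
  have hs : sg κ (fun l => (w l : ℂ)) = fun i => if κ i = 0 then (E (w i) : St 3) else Del := by
    funext i
    rcases h i with h | h | h
    · simp [sg, h.2.1, T3]
    · simp at h
    · simp [sg, h, T3]
  have hw : ∀ i, κ i = 0 → 503 / 500 ≤ w i := by
    intro i hi
    rcases h i with h | h | h
    · exact h.2.2
    · simp at h
    · omega
  constructor
  · refine (Complex.lt_def.1 (Lam_pos hN _ ?_)).1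
    intro i; rw [hs]; dsimp only; split_ifs with hi
    · exact E_NN _ (by linarith [hw i hi])
    · exact Del_NN
  · intro j hj
    obtain ⟨m0, m1, p0, p1, hm, he⟩ := init_power (r := 3) hN 2 (201 / 200) (503 / 500)
      (by norm_num) (by norm_num) hb (fun i => κ i = 0) w hw j hj
    have hy : ∀ y : ℝ, cR (cf N κ w j) y = (m0 + y * m1) ^ 3 := by
      intro y
      have := he y
      rw [← hs, cf_E hN, cC_ofReal] at this
      exact_mod_cast this
    have y0 := hy 0
    have y1 := hy 1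
    have y2 := hy (-1)
    have y3 := hy 2
    simp only [cR] at y0 y1 y2 y3
    have c0 : cf N κ w j 0 = m0 ^ 3 := by linarith
    have c1 : cf N κ w j 1 = 3 * m0 ^ 2 * m1 := by linarith
    have c2 : cf N κ w j 2 = 3 * m0 * m1 ^ 2 := by linarith
    rw [c0, c1, c2]
    constructor
    · nlinarith [mul_pos (pow_pos p0 2) (sub_pos.2 hm)]
    · have : fK (m0 ^ 3) (3 * m0 ^ 2 * m1) (3 * m0 * m1 ^ 2)
          = m0 * ((m0 - 2 * m1) * (109 / 100 * m0 - m1)) := by unfold fK; ring
      rw [this]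
      exact mul_pos p0 (mul_pos (by linarith) (by linarith))

lemma inv_step {N : Matrix ι ι ℂ} (hN : N.PosSemidef) {S : Finset ι} {i : ι} (hi : i ∉ S)
    (hI : Inv N S) : Inv N (insert i S) := by
  intro κ w h
  by_cases h3 : κ i = 3
  · apply hI κ w
    intro l
    by_cases hl : l = i
    · subst hl; exact Or.inr (Or.inr h3)
    · simpa [hl] using h l
  have h2 : κ i = 2 ∧ -(1 / 250) ≤ w i := by
    rcases h i with h | h | h
    · simp at h
    · exact h.2
    · exact absurd h h3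
  set b : ℝ := w i + 101 / 100 with hb
  have hb0 : 503 / 500 ≤ b := by rw [hb]; linarith [h2.2]
  set κ' := Function.update κ i 0 with hκ'
  set w' := Function.update w i b with hw'
  have hA : Ad S κ' w' := by
    intro l
    by_cases hl : l = i
    · subst hl; left; simp [hκ', hw', hi, hb0]
    · simpa [hκ', hw', hl] using h l
  have hwi : w' i = b := by simp [hw']
  set σ' := sg κ' (fun l => (w' l : ℂ)) with hσ'
  have hσ : sg κ (fun l => (w l : ℂ)) = Function.update σ' i (T3 2 b + (-(303 / 100 : ℝ) : ℂ) • T3 3 b) := by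
    have e : T3 2 (w i) = T3 2 b + (-(303 / 100 : ℝ) : ℂ) • T3 3 b := by
      have := L_add3 b (-(101 / 100))
      have e2 : (b : ℂ) + -(101 / 100) = w i := by rw [hb]; push_cast; ring
      rw [e2] at this
      rw [show T3 2 (w i) = L (w i) from rfl, this]; congr 2; push_cast; ring
    funext l
    by_cases hl : l = i
    · subst hl; simp only [Function.update_self, sg, h2.1]; exact e
    · simp [hσ', sg, hl, hκ', hw']
  have hpos : 0 < cf N κ' w' i 2 - 303 / 100 * cf N κ' w' i 3 := by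
    have p3 : 0 < cf N κ' w' i 3 := inv_pos hI hA i 3 _ (Or.inr (Or.inr rfl))
    apply step_pos p3
    · intro x hx
      have := LB hN κ' hA.ne_one (fun l => w' l) (by simp) i (w' i + x) (by simpa using hx)
      rw [cf_E hN] at this
      have e : Lam N (Function.update (sg κ' fun l => (w' l : ℂ)) i Del) = cf N κ' w' i 3 :=
        (cf_eq hN κ' w' i 3).symm
      rw [e] at this
      intro h0
      have h1 : cC (cf N κ' w' i) x = 0 := h0
      rw [h1, norm_zero] at this
      have : 0 < ‖(cf N κ' w' i 3 : ℂ)‖ * ((w' i : ℂ) + x).im ^ 3 :=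
        mul_pos (norm_pos_iff.2 (by exact_mod_cast p3.ne')) (pow_pos (by simpa using hx) _)
      linarith
    · intro x hx
      have := inv_pos hI hA i 0 (w' i + x) (Or.inl ⟨hi, rfl, by rw [hwi]; linarith⟩)
      rw [show T3 0 ((w' i + x : ℝ) : ℂ) = E ((w' i : ℂ) + x) by simp [T3], cf_E hN, cC_ofReal] at this
      exact this
    · exact (hI _ _ hA).2 i (by simp [hκ'])
  constructor
  · rw [hσ, MultilinearMap.map_update_add, MultilinearMap.map_update_smul, ← hwi, ← cf_eq hN,
      ← cf_eq hN]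
    simp only [smul_eq_mul, Complex.add_re, Complex.ofReal_re, neg_mul, Complex.neg_re,
      Complex.re_ofReal_mul]
    linarith
  intro j hj
  have hji : j ≠ i := by rintro rfl; omega
  have hj' : κ' j = 0 := by simp [hκ', hji, hj]
  have hwj : w' j = w j := by simp [hw', hji]
  have hjS : j ∉ S ∧ 503 / 500 ≤ w j := by
    rcases hA j with h | h | h
    · exact ⟨h.1, by rw [← hwj]; exact h.2.2⟩
    · omega
    · omega
  set c : ℕ → ℕ → ℝ := fun a => cf N (Function.update κ' i a) (Function.update w' i b) j with hc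
  have hcE : ∀ a (y : ℂ), cC (c a) y =
      Lam N (Function.update (Function.update σ' j (E (w j + y))) i (T3 a b)) := by
    intro a y
    rw [hc, ← cf_E hN, upd_cast, sg_update, Function.update_comm hji]
    simp [hji, hwj, hσ']
  have hcT : ∀ a d, (c a d : ℂ) =
      Lam N (Function.update (Function.update σ' j (T3 d (w j))) i (T3 a b)) := by
    intro a d
    rw [hc, cf_eq hN, upd_cast, sg_update, Function.update_comm hji]
    simp [hji, hwj, hσ']
  have hpC : ∀ x y : ℂ, pC c x y =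
      Lam N (Function.update (Function.update σ' j (E (w j + y))) i (E (b + x))) := by
    intro x y
    have := lin_E ((Lam N).toLinearMap (Function.update σ' j (E (w j + y))) i) b x
    simp only [MultilinearMap.toLinearMap_apply] at this
    rw [this, pC, hcE, hcE, hcE, hcE]
  have hA3 : Ad S (Function.update κ' i 3) (Function.update w' i b) :=
    hA.upd i 3 b (Or.inr (Or.inr rfl))
  have top : 0 < c 3 3 := inv_pos hI hA3 j 3 _ (Or.inr (Or.inr rfl))
  have hwj3 : Function.update w' i b j = w j := by simp [hji, hwj]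
  have lpos : ∀ y : ℝ, 0 ≤ y → 0 < cR (c 3) y := by
    intro y hy
    have := inv_pos hI hA3 j 0 (w j + y) (Or.inl ⟨hjS.1, rfl, by linarith [hjS.2]⟩)
    rw [show T3 0 ((w j + y : ℝ) : ℂ) = E ((Function.update w' i b j : ℝ) + (y : ℂ)) by
      simp [T3, hwj3], cf_E hN, cC_ofReal] at this
    exact this
  have lead : ∀ y : ℂ, U y → cC (c 3) y ≠ 0 := by
    rintro y (hy | ⟨hy, hy'⟩)
    · have := LB hN _ hA3.ne_one (fun l => (Function.update w' i b l : ℝ)) (by simp) j
        ((Function.update w' i b j : ℝ) + y) (by simpa using hy)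
      rw [cf_E hN] at this
      have e : Lam N (Function.update (sg (Function.update κ' i 3)
          fun l => ((Function.update w' i b l : ℝ) : ℂ)) j Del) = c 3 3 :=
        (cf_eq hN _ _ j 3).symm
      rw [e] at this
      intro h0
      have h1 : cC (cf N (Function.update κ' i 3) (Function.update w' i b) j) y = 0 := h0
      rw [h1, norm_zero] at this
      have : 0 < ‖(c 3 3 : ℂ)‖ * (((Function.update w' i b j : ℝ) : ℂ) + y).im ^ 3 :=
        mul_pos (norm_pos_iff.2 (by exact_mod_cast top.ne')) (pow_pos (by simpa using hy) _)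
      linarith
    · have e : y = (y.re : ℂ) := by apply Complex.ext <;> simp [hy]
      rw [e, cC_ofReal]; exact_mod_cast (lpos _ hy').ne'
  have hG : Good2 c := by
    refine ⟨?_, lead, ?_, lpos, top⟩
    · intro x y hx hy
      have hyim : 0 ≤ y.im := by rcases hy with h | h; exacts [h.le, h.1.ge]
      have := LB hN (Function.update κ' j 0) (by
          intro l; by_cases hl : l = j
          · subst hl; simp
          · simpa [hl] using hA.ne_one l)
        (Function.update (fun l => (w' l : ℂ)) j (w j + y)) (by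
          intro l; by_cases hl : l = j
          · subst hl; simpa using hyim
          · simp [hl]) i (b + x) (by simpa using hx)
      rw [sg_update] at this
      have e1 := hcE 3 y
      have e2 := hpC x y
      simp only [T3] at this e1
      rw [← hσ', ← e1, ← e2] at this
      intro h0
      rw [h0, norm_zero] at this
      have : 0 < ‖cC (c 3) y‖ * ((b : ℂ) + x).im ^ 3 :=
        mul_pos (norm_pos_iff.2 (lead y hy)) (pow_pos (by simpa using hx) _)
      linarith
    · intro x y hx hy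
      have := inv_pos hI (hA.upd j 0 (w j + y) (Or.inl ⟨hjS.1, rfl, by linarith [hjS.2]⟩)) i 0
        (b + x) (Or.inl ⟨hi, rfl, by linarith⟩)
      rw [upd_cast, sg_update] at this
      have e : pC c x y = (pR c x y : ℂ) := by simp [pC, pR, cC_ofReal]
      have e2 := hpC x y
      simp only [T3] at this
      push_cast at this
      rw [← hσ', ← e2, e] at this
      exact this
  have hσi : Function.update σ' i (T3 0 b) = σ' := by
    apply Function.update_eq_self_iff.2; simp [hσ', sg, hκ', hwi]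
  have hσj : Function.update σ' j (T3 0 (w j)) = σ' := by
    apply Function.update_eq_self_iff.2; simp [hσ', sg, hj', hwj]
  have cx : ∀ a, c a 0 = cf N κ' w' i a := by
    intro a
    have := hcT a 0
    rw [hσj, ← hwi, ← cf_eq hN] at this
    exact_mod_cast this
  have cy : ∀ d, c 0 d = cf N κ' w' j d := by
    intro d
    have := hcT 0 d
    rw [← Function.update_comm hji.symm, hσi, ← hwj, ← cf_eq hN] at this
    exact_mod_cast this
  have cn : ∀ d, cf N κ w j d = c 2 d - 303 / 100 * c 3 d := by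
    intro d
    have := cf_eq hN κ w j d
    rw [hσ, Function.update_comm hji.symm, MultilinearMap.map_update_add,
      MultilinearMap.map_update_smul, ← hcT, ← hcT, smul_eq_mul] at this
    have e : (cf N κ w j d : ℂ) = ((c 2 d - 303 / 100 * c 3 d : ℝ) : ℂ) := by
      rw [this]; push_cast; ring
    exact_mod_cast e
  rw [cn, cn, cn]
  apply step3 hG
  · rw [cx, cx, cx]; exact (hI _ _ hA).2 i (by simp [hκ'])
  · rw [cy, cy, cy]; exact (hI _ _ hA).2 j hj'
  · rw [cx, cx]; exact hpos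

theorem main3 {N : Matrix ι ι ℂ} (hN : N.PosSemidef)
    (hb : ∀ (v : ι → ℂ) (j : ι),
      2 * ‖v j‖ ^ 2 ≤ 201 / 200 * ∑ i, ‖v i‖ ^ 2 + (star v ⬝ᵥ (N *ᵥ v)).re) :
    ∃ f : ι → Fin 3, ∀ (k : Fin 3) (v : ι → ℂ), (∀ i, f i ≠ k → v i = 0) →
      1 / 250 * ∑ i, ‖v i‖ ^ 2 ≤ (star v ⬝ᵥ (N *ᵥ v)).re := by
  have hall : ∀ S : Finset ι, Inv N S := by
    intro S
    induction S using Finset.induction_on with
    | empty => exact inv_empty hN hb
    | insert i S hi ih => exact inv_step hN hi ih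
  obtain ⟨f, hf⟩ := select hN L_Good3 (-(1 / 250)) (fun x hx =>
    (hall Finset.univ (fun _ => 2) (fun _ => x)
      (fun l => Or.inr (Or.inl ⟨Finset.mem_univ _, rfl, hx⟩))).1)
  refine ⟨f, fun k v hv => ?_⟩
  simpa using extract hN f _ hf k v hv

end Pool.Agent.H677Z.Pav
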