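import Pool.Agent.H677Z.Pav.Lam

/-!
Selection of a good partition from the expected polynomial, and extraction of the operator bound.
-/

namespace Pool.Agent.H677Z.Pav

open Matrix Filter Topology
open scoped ComplexOrder

variable {ι : Type} [Fintype ι] [DecidableEq ι] {r : ℕ}

lemma pick_mono (h : ℂ → ℂ) (D : Set ℝ) (hD : Convex ℝ D)
    (hd : ∀ x ∈ D, DifferentiableAt ℂ h x) (hre : ∀ x ∈ D, (h x).im = 0)
    (him : ∀ z : ℂ, 0 < z.im → 0 ≤ (h z).im) : MonotoneOn (fun x : ℝ => (h x).re) D := by
  have hder : ∀ x ∈ D, HasDerivAt (fun x : ℝ => (h x).re) (deriv h x).re x :=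
    fun x hx => (hd x hx).hasDerivAt.real_of_complex
  apply monotoneOn_of_deriv_nonneg hD
  · exact fun x hx => (hder x hx).continuousAt.continuousWithinAt
  · exact fun x hx => (hder x (interior_subset hx)).differentiableAt.differentiableWithinAt
  · intro x hx
    have hx' := interior_subset hx
    rw [(hder x hx').deriv]
    have h1 : HasDerivAt (fun z : ℂ => -Complex.I * h (x + Complex.I * z))
        (-Complex.I * (deriv h x * Complex.I)) ((0 : ℝ) : ℂ) := by
      apply HasDerivAt.const_mul
      have a : HasDerivAt (fun z : ℂ => (x : ℂ) + Complex.I * z) Complex.I ((0 : ℝ) : ℂ) := by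
        simpa using ((hasDerivAt_id ((0 : ℝ) : ℂ)).const_mul Complex.I).const_add (x : ℂ)
      have b : HasDerivAt h (deriv h x) ((x : ℂ) + Complex.I * ((0 : ℝ) : ℂ)) := by
        simpa using (hd x hx').hasDerivAt
      exact HasDerivAt.comp (h := fun z : ℂ => (x : ℂ) + Complex.I * z) ((0 : ℝ) : ℂ) b a
    have h2 := h1.real_of_complex
    have h3 : (-Complex.I * (deriv h x * Complex.I)).re = (deriv h x).re := by simp
    rw [h3] at h2
    apply ge_of_tendsto h2.tendsto_slope_zero_right
    filter_upwards [self_mem_nhdsWithin] with t ht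
    have ht' : 0 < t := ht
    have := him (x + Complex.I * t) (by simpa using ht')
    simp only [zero_add, smul_eq_mul]
    apply mul_nonneg (inv_nonneg.2 ht'.le)
    simpa [hre x hx'] using this

lemma im_div_nonneg {q B : ℂ} (hB : B ≠ 0) (h : ∀ w : ℂ, 0 < w.im → q + w * B ≠ 0) :
    0 ≤ (q / B).im := by
  by_contra hc
  apply h (-(q / B)) (by simpa using hc)
  field_simp; ring

lemma select_step (q : Fin r → ℂ → ℂ) (B : ℂ → ℂ) (hq : ∀ k, Differentiable ℂ (q k))
    (hB : Differentiable ℂ B) (hqr : ∀ k (x : ℝ), (q k x).im = 0) (hBr : ∀ x : ℝ, (B x).im = 0)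
    (hB0 : ∀ z : ℂ, 0 < z.im → B z ≠ 0)
    (hst : ∀ k (z w : ℂ), 0 < z.im → 0 < w.im → q k z + w * B z ≠ 0)
    (hBpos : ∀ x : ℝ, 0 < x → 0 < (B x).re) (x0 : ℝ)
    (hsum : ∀ x : ℝ, x0 ≤ x → 0 < (∑ k, q k x).re) :
    ∃ k, ∀ x : ℝ, x0 ≤ x → 0 < (q k x).re := by
  have hBne : ∀ x : ℝ, 0 < (B x).re → B x ≠ 0 := by
    intro x hx h0; rw [h0] at hx; simp at hx
  have hdiv : ∀ (p : ℂ) (x : ℝ), p.im = 0 → (p / B x).re = p.re / (B x).re := by
    intro p x hp
    have e1 : p = (p.re : ℂ) := by apply Complex.ext <;> simp [hp]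
    have e2 : B x = ((B x).re : ℂ) := by apply Complex.ext <;> simp [hBr x]
    rw [e1, e2, ← Complex.ofReal_div]; simp
  have hdivim : ∀ (p : ℂ) (x : ℝ), p.im = 0 → (p / B x).im = 0 := by
    intro p x hp
    have e1 : p = (p.re : ℂ) := by apply Complex.ext <;> simp [hp]
    have e2 : B x = ((B x).re : ℂ) := by apply Complex.ext <;> simp [hBr x]
    rw [e1, e2, ← Complex.ofReal_div]; simp
  have mono : ∀ (k) (D : Set ℝ), Convex ℝ D → (∀ x ∈ D, 0 < (B x).re) →
      MonotoneOn (fun x : ℝ => (q k x).re / (B x).re) D := by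
    intro k D hD hpos
    have := pick_mono (fun z => q k z / B z) D hD
      (fun x hx => ((hq k) x).div (hB x) (hBne x (hpos x hx)))
      (fun x _ => hdivim _ x (hqr k x))
      (fun z hz => im_div_nonneg (hB0 z hz) (fun w hw => hst k z w hz hw))
    intro a ha b hb hab
    have h2 := this ha hb hab
    simp only [hdiv _ _ (hqr k _)] at h2
    exact h2
  have cB : Continuous fun x : ℝ => (B x).re :=
    Complex.continuous_re.comp (hB.continuous.comp Complex.continuous_ofReal)
  have cq : ∀ k, Continuous fun x : ℝ => (q k x).re := fun k =>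
    Complex.continuous_re.comp ((hq k).continuous.comp Complex.continuous_ofReal)
  have hBall : ∀ x : ℝ, x0 ≤ x → 0 < (B x).re := by
    by_contra hc
    push Not at hc
    obtain ⟨y, hy, hy'⟩ := hc
    set Z : Set ℝ := Set.Icc x0 1 ∩ {x | (B x).re ≤ 0} with hZ
    have hZc : IsCompact Z := isCompact_Icc.inter_right (isClosed_le cB continuous_const)
    have hy1 : y ≤ 1 := by
      by_contra h; have := hBpos y (by linarith [not_le.1 h]); linarith
    obtain ⟨x1, hx1, hmax⟩ := hZc.exists_isGreatest ⟨y, ⟨hy, hy1⟩, hy'⟩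
    have hx1' : x1 ≤ 0 := by
      by_contra h; have := hBpos x1 (not_le.1 h); have := hx1.2; simp at this; linarith
    have hpos : ∀ x ∈ Set.Ioi x1, 0 < (B x).re := by
      intro x hx
      by_contra h
      have hx' : x1 < x := hx
      by_cases h1 : x ≤ 1
      · have : x ≤ x1 := hmax ⟨⟨by linarith [hx1.1.1], h1⟩, not_lt.1 h⟩
        linarith
      · exact h (hBpos x (by linarith [not_le.1 h1]))
    set C : ℝ := ∑ k, (q k (1 : ℝ)).re / (B (1 : ℝ)).re with hC
    have hle : ∀ᶠ x in 𝓝[>] x1, ∑ k, (q k (x : ℝ)).re ≤ C * (B x).re := by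
      filter_upwards [Ioo_mem_nhdsGT (show x1 < 1 by linarith)] with x hx
      have hx' := hpos x hx.1
      rw [hC, Finset.sum_mul]
      apply Finset.sum_le_sum
      intro k _
      have := mono k (Set.Ioi x1) (convex_Ioi _) hpos hx.1 (show x1 < 1 by linarith) hx.2.le
      exact (div_le_iff₀ hx').1 this
    have l1 : Tendsto (fun x : ℝ => ∑ k, (q k x).re) (𝓝[>] x1) (𝓝 (∑ k, (q k x1).re)) :=
      ((continuous_finsetSum _ fun k _ => cq k).tendsto x1).mono_left nhdsWithin_le_nhds
    have l2 : Tendsto (fun x : ℝ => (B x).re) (𝓝[>] x1) (𝓝 (B x1).re) :=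
      (cB.tendsto x1).mono_left nhdsWithin_le_nhds
    have a1 := le_of_tendsto_of_tendsto l1 (l2.const_mul C) hle
    have a2 : 0 ≤ (B x1).re := by
      apply ge_of_tendsto l2
      filter_upwards [self_mem_nhdsWithin] with x hx using (hpos x hx).le
    have a3 : (B x1).re = 0 := le_antisymm hx1.2 a2
    have a4 := hsum x1 hx1.1.1
    rw [Complex.re_sum] at a4
    rw [a3] at a1
    linarith
  have a4 := hsum x0 le_rfl
  rw [Complex.re_sum] at a4
  obtain ⟨k, -, hk⟩ := Finset.exists_lt_of_sum_lt (s := Finset.univ) (f := fun _ => (0 : ℝ))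
    (g := fun k => (q k x0).re) (by simpa using a4)
  refine ⟨k, fun x hx => ?_⟩
  have := mono k (Set.Ici x0) (convex_Ici _) hBall (Set.mem_Ici.2 le_rfl) hx hx
  have h2 : 0 < (q k x).re / (B x).re := lt_of_lt_of_le (div_pos hk (hBall x0 le_rfl)) this
  exact (div_pos_iff_of_pos_right (hBall x hx)).1 h2

theorem select [NeZero r] {N : Matrix ι ι ℂ} (hN : N.PosSemidef)
    (hL : ∀ w : ℂ, 0 < w.im → Good (L w : St r)) (x0 : ℝ)
    (h : ∀ x : ℝ, x0 ≤ x → 0 < (Lam N (fun _ => (L x : St r))).re) :
    ∃ f : ι → Fin r, ∀ x : ℝ, x0 ≤ x → 0 < (Lam N (fun i => Asg (f i) x)).re := by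
  have key : ∀ T : Finset ι, ∃ f : ι → Fin r, ∀ x : ℝ, x0 ≤ x →
      0 < (Lam N (fun i => if i ∈ T then Asg (f i) x else L x)).re := by
    intro T
    induction T using Finset.induction_on with
    | empty => exact ⟨fun _ => 0, by simpa using h⟩
    | insert i T hi ih =>
      obtain ⟨f, hf⟩ := ih
      set σ : ℂ → ι → St r := fun x j => if j ∈ T then Asg (f j) x else L x with hσ
      have hσd : ∀ j β, Differentiable ℂ fun x => σ x j β := by
        intro j β; simp only [hσ]; split_ifs; exacts [Asg_diff _ _, L_diff _]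
      have hσr : ∀ (x : ℝ) j, IsR (σ x j) := by
        intro x j; simp only [hσ]; split_ifs; exacts [Asg_IsR _ _, L_IsR _]
      have hσg : ∀ (z : ℂ), 0 < z.im → ∀ j, Good (σ z j) := by
        intro z hz j; simp only [hσ]; split_ifs; exacts [Asg_Good _ _ hz, hL _ hz]
      have hσn : ∀ (x : ℝ), 0 < x → ∀ j, NN (σ x j) := by
        intro x hx j; simp only [hσ]; split_ifs; exacts [Asg_NN _ _ hx, L_NN _ hx]
      obtain ⟨k, hk⟩ := select_step (fun k z => Lam N (Function.update (σ z) i (Asg k z)))
        (fun z => Lam N (Function.update (σ z) i Del))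
        (fun k => Lam_diff N _ (by
          intro j β; by_cases hj : j = i
          · subst hj; simpa using Asg_diff k β
          · simpa [hj] using hσd j β))
        (Lam_diff N _ (by
          intro j β; by_cases hj : j = i
          · subst hj; simp
          · simpa [hj] using hσd j β))
        (fun k x => Lam_im hN _ (by
          intro j; by_cases hj : j = i
          · subst hj; simpa using Asg_IsR k x
          · simpa [hj] using hσr x j))
        (fun x => Lam_im hN _ (by
          intro j; by_cases hj : j = i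
          · subst hj; simpa using Del_IsR
          · simpa [hj] using hσr x j))
        (fun z hz => Lam_ne hN _ (by
          intro j; by_cases hj : j = i
          · subst hj; simpa using Del_Good
          · simpa [hj] using hσg z hz j))
        (fun k z w hz hw => by
          have : Lam N (Function.update (σ z) i (Asg k (z + w))) ≠ 0 := Lam_ne hN _ (by
            intro j; by_cases hj : j = i
            · subst hj; simpa using Asg_Good k (z + w) (by simp; linarith)
            · simpa [hj] using hσg z hz j)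
          rwa [Asg_add, MultilinearMap.map_update_add, MultilinearMap.map_update_smul,
            smul_eq_mul] at this)
        (fun x hx => (Complex.lt_def.1 (Lam_pos hN _ (by
          intro j; by_cases hj : j = i
          · subst hj; simpa using Del_NN
          · simpa [hj] using hσn x hx j))).1)
        x0
        (fun x hx => by
          have e : ∑ k, Lam N (Function.update (σ x) i (Asg k x)) = Lam N (σ x) := by
            rw [← MultilinearMap.map_update_sum]
            congr 1
            apply Function.update_eq_self_iff.2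
            simp [hσ, hi, L]
          rw [e]; exact hf x hx)
      refine ⟨Function.update f i k, fun x hx => ?_⟩
      convert hk x hx using 3
      funext j
      by_cases hj : j = i
      · subst hj; simp
      · simp [hj, hσ]
  obtain ⟨f, hf⟩ := key Finset.univ
  exact ⟨f, by simpa using hf⟩

theorem extract {N : Matrix ι ι ℂ} (hN : N.PosSemidef) (f : ι → Fin r) (x0 : ℝ)
    (h : ∀ x : ℝ, x0 ≤ x → 0 < (Lam N (fun i => Asg (f i) x)).re) (k : Fin r) (v : ι → ℂ)
    (hv : ∀ i, f i ≠ k → v i = 0) :
    -x0 * ∑ i, ‖v i‖ ^ 2 ≤ (star v ⬝ᵥ (N *ᵥ v)).re := by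
  let D : Matrix ι ι ℂ := diagonal (fun i => if f i = k then 1 else 0)
  have hD : Dᴴ = D := by
    simp only [D, diagonal_conjTranspose]; congr 1; funext i; by_cases h : f i = k <;> simp [h]
  let H : Matrix ι ι ℂ := Dᴴ * (N + (x0 : ℂ) • 1) * D
  have hH : H.IsHermitian := by
    apply isHermitian_conjTranspose_mul_mul
    apply hN.isHermitian.add
    simp [IsHermitian]
  have hDv : ∀ u : ι → ℂ, (∀ i, f i ≠ k → u i = 0) → D *ᵥ u = u := by
    intro u hu; funext i
    simp only [D, mulVec_diagonal]
    by_cases h : f i = k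
    · simp [h]
    · simp [h, hu i h]
  have hHv : ∀ u : ι → ℂ, (∀ i, f i ≠ k → u i = 0) → ∀ i,
      (H *ᵥ u) i = if f i = k then (N *ᵥ u) i + x0 * u i else 0 := by
    intro u hu i
    simp only [H]
    rw [← mulVec_mulVec, ← mulVec_mulVec, hDv u hu, hD]
    simp only [D, mulVec_diagonal, add_mulVec, smul_mulVec, one_mulVec]
    split_ifs <;> simp
  have hpsd : H.PosSemidef := by
    rw [hH.posSemidef_iff_eigenvalues_nonneg]
    intro j
    by_contra hc
    have hμ : hH.eigenvalues j < 0 := not_le.1 hc
    set u : ι → ℂ := ⇑(hH.eigenvectorBasis j) with hu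
    have hev : H *ᵥ u = (hH.eigenvalues j) • u := hH.mulVec_eigenvectorBasis j
    have hu0 : u ≠ 0 := by
      intro h0
      have := hH.eigenvectorBasis.orthonormal.ne_zero j
      apply this
      ext i; exact congrFun h0 i
    have hsupp : ∀ i, f i ≠ k → u i = 0 := by
      intro i hi
      have a : (H *ᵥ u) i = 0 := by
        simp only [H]
        rw [← mulVec_mulVec, ← mulVec_mulVec, hD]
        simp [D, mulVec_diagonal, hi]
      rw [hev] at a
      simpa [hμ.ne] using a
    have hx := h (x0 - hH.eigenvalues j) (by linarith)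
    have hdet : (Mq N (fun i => if k = f i then ((1 : ℂ), ((x0 - hH.eigenvalues j : ℝ) : ℂ))
        else (0, 1))).det = 0 := by
      apply exists_mulVec_eq_zero_iff.1
      refine ⟨u, hu0, ?_⟩
      funext i
      rw [Mq_mulVec]
      by_cases hi : f i = k
      · have a := hHv u hsupp i
        rw [hev] at a
        simp only [hi, if_true, Pi.smul_apply, Complex.real_smul] at a ⊢
        push_cast
        simp only [Pi.zero_apply]
        linear_combination -a
      · simp [Ne.symm hi, hsupp i hi]
    have : Lam N (fun i => Asg (f i) ((x0 - hH.eigenvalues j : ℝ) : ℂ)) = 0 := by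
      simp only [Asg]
      rw [Lam_pr]
      exact Finset.prod_eq_zero (Finset.mem_univ k) hdet
    rw [this] at hx
    simp at hx
  have h1 := (Complex.le_def.1 (hpsd.dotProduct_mulVec_nonneg v)).1
  have h2 : star v ⬝ᵥ (H *ᵥ v) = star v ⬝ᵥ (N *ᵥ v) + ((x0 * ∑ i, ‖v i‖ ^ 2 : ℝ) : ℂ) := by
    simp only [dotProduct]
    push_cast
    rw [Finset.mul_sum, ← Finset.sum_add_distrib]
    apply Finset.sum_congr rfl
    intro i _
    rw [hHv v hv i]
    by_cases hi : f i = k
    · simp only [hi, if_true, Pi.star_apply, Complex.star_def]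
      rw [← Complex.conj_mul' (v i)]; ring
    · simp [hv i hi]
  rw [h2] at h1
  simp only [Complex.add_re, Complex.ofReal_re, Complex.zero_re] at h1
  linarith

end Pool.Agent.H677Z.Pav
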